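import Mathlib
import Pool.Agent.Helper764.KacDefs

set_option autoImplicit false
set_option maxHeartbeats 4000000
open MeasureTheory ProbabilityTheory Filter Topology Set
open scoped ENNReal NNReal

namespace Q298.KacU

theorem int_abs_std : ∫ x : ℝ, |x| * Real.exp (-(x ^ 2 / 2)) = 2 := by
  have h1 : ∫ x : ℝ, |x| * Real.exp (-(x ^ 2 / 2)) = ∫ x : ℝ, (fun y : ℝ => y * Real.exp (-(y ^ 2 / 2))) |x| := by
    simp
  rw [h1, integral_comp_abs (f := fun y : ℝ => y * Real.exp (-(y ^ 2 / 2)))]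
  have h2 := integral_rpow_mul_exp_neg_mul_rpow (p := 2) (q := 1) (b := 1 / 2) (by norm_num)
    (by norm_num) (by norm_num)
  have h3 : ∫ x in Ioi (0 : ℝ), x * Real.exp (-(x ^ 2 / 2)) = 1 := by
    have : ∀ x ∈ Ioi (0 : ℝ), x * Real.exp (-(x ^ 2 / 2)) = x ^ (1 : ℝ) * Real.exp (-(1 / 2) * x ^ (2 : ℝ)) := by
      intro x hx
      rw [Real.rpow_one, Real.rpow_two]
      ring_nf
    rw [setIntegral_congr_fun measurableSet_Ioi this, h2]
    norm_num [Real.Gamma_one]
  rw [h3]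
  norm_num

theorem lint_abs_std : ∫⁻ y, ENNReal.ofReal |y| ∂(gaussianReal 0 1)
    = ENNReal.ofReal (Real.sqrt (2 / Real.pi)) := by
  rw [gaussianReal_of_var_ne_zero _ one_ne_zero,
    lintegral_withDensity_eq_lintegral_mul _ (measurable_gaussianPDF _ _) (by fun_prop)]
  have h : ∀ y : ℝ, (gaussianPDF 0 1 * fun y => ENNReal.ofReal |y|) y
      = ENNReal.ofReal ((Real.sqrt (2 * Real.pi))⁻¹ * (|y| * Real.exp (-(y ^ 2 / 2)))) := by
    intro y
    simp only [Pi.mul_apply, gaussianPDF, gaussianPDFReal]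
    rw [← ENNReal.ofReal_mul (by positivity)]
    congr 1
    simp only [NNReal.coe_one, mul_one, sub_zero]
    rw [neg_div]
    ring
  simp only [h]
  have hint : Integrable (fun y : ℝ => |y| * Real.exp (-(y ^ 2 / 2))) := by
    by_contra hcon
    have := integral_undef hcon
    rw [int_abs_std] at this
    norm_num at this
  rw [← ofReal_integral_eq_lintegral_ofReal (hint.const_mul _)
    (Eventually.of_forall fun y => by positivity), integral_const_mul, int_abs_std]
  congr 1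
  rw [Real.sqrt_div (by norm_num), Real.sqrt_mul (by norm_num)]
  have h2 : Real.sqrt 2 ^ 2 = 2 := Real.sq_sqrt (by norm_num)
  have h3 : 0 < Real.sqrt 2 := by positivity
  have h4 : 0 < Real.sqrt Real.pi := Real.sqrt_pos.2 Real.pi_pos
  field_simp
  linarith

theorem lint_abs_gauss (v : ℝ≥0) : ∫⁻ y, ENNReal.ofReal |y| ∂(gaussianReal 0 v)
    = ENNReal.ofReal (Real.sqrt (2 / Real.pi) * Real.sqrt v) := by
  have h := gaussianReal_map_const_mul (μ := 0) (v := 1) (Real.sqrt v)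
  have h2 : (NNReal.mk (Real.sqrt v ^ 2) (sq_nonneg _)) * 1 = v := by
    rw [mul_one]
    ext
    simp
  rw [mul_zero, h2] at h
  rw [← h, lintegral_map (by fun_prop) (by fun_prop)]
  have h3 : ∀ y : ℝ, ENNReal.ofReal |Real.sqrt v * y| = ENNReal.ofReal (Real.sqrt v) * ENNReal.ofReal |y| := by
    intro y
    rw [abs_mul, abs_of_nonneg (Real.sqrt_nonneg _), ENNReal.ofReal_mul (Real.sqrt_nonneg _)]
  simp only [h3]
  rw [lintegral_const_mul _ (by fun_prop), lint_abs_std, ← ENNReal.ofReal_mul (Real.sqrt_nonneg _)]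
  congr 1
  ring

theorem prod_pdf (v S : ℝ≥0) (hv : v ≠ 0) (hS : S ≠ 0) (x : ℝ) :
    gaussianPDF 0 v x * gaussianPDF 0 S x
      = ENNReal.ofReal ((Real.sqrt (2 * Real.pi * (v + S)))⁻¹) * gaussianPDF 0 (v * S / (v + S)) x := by
  have hv' : (0 : ℝ) < v := by positivity
  have hS' : (0 : ℝ) < S := by positivity
  simp only [gaussianPDF, gaussianPDFReal]
  rw [← ENNReal.ofReal_mul (by positivity), ← ENNReal.ofReal_mul (by positivity)]
  congr 1
  push_cast
  simp only [sub_zero]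
  have h1 : Real.exp (-x ^ 2 / (2 * (v : ℝ))) * Real.exp (-x ^ 2 / (2 * (S : ℝ)))
      = Real.exp (-x ^ 2 / (2 * ((v : ℝ) * S / (v + S)))) := by
    rw [← Real.exp_add]
    congr 1
    field_simp
    ring
  have h2 : (Real.sqrt (2 * Real.pi * (v : ℝ)))⁻¹ * (Real.sqrt (2 * Real.pi * (S : ℝ)))⁻¹
      = (Real.sqrt (2 * Real.pi * ((v : ℝ) + S)))⁻¹ * (Real.sqrt (2 * Real.pi * ((v : ℝ) * S / (v + S))))⁻¹ := by
    rw [← mul_inv, ← mul_inv, ← Real.sqrt_mul (by positivity), ← Real.sqrt_mul (by positivity)]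
    congr 2
    field_simp
  rw [← h1]
  calc _ = ((Real.sqrt (2 * Real.pi * (v : ℝ)))⁻¹ * (Real.sqrt (2 * Real.pi * (S : ℝ)))⁻¹)
        * (Real.exp (-x ^ 2 / (2 * (v : ℝ))) * Real.exp (-x ^ 2 / (2 * (S : ℝ)))) := by ring
    _ = _ := by rw [h2]; ring

theorem two_dim (v S W : ℝ≥0) (hv : v ≠ 0) (hS : S ≠ 0) (c : ℝ) :
    ∫⁻ p, ENNReal.ofReal |c * p.1 + p.2| * gaussianPDF 0 v p.1
        ∂((gaussianReal 0 S).prod (gaussianReal 0 W))
      = ENNReal.ofReal (1 / Real.pi * (Real.sqrt (c ^ 2 * (v * S / (v + S)) + W) / Real.sqrt (v + S))) := by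
  have hv' : (0 : ℝ) < v := by positivity
  have hS' : (0 : ℝ) < S := by positivity
  have hvS : v * S / (v + S) ≠ 0 := by positivity
  have hm : Measurable (fun p : ℝ × ℝ => ENNReal.ofReal |c * p.1 + p.2| * gaussianPDF 0 v p.1) := by
    have := measurable_gaussianPDF 0 v
    fun_prop
  rw [lintegral_prod_symm' _ hm]
  have h1 : ∀ w : ℝ, ∫⁻ x, ENNReal.ofReal |c * x + w| * gaussianPDF 0 v x ∂(gaussianReal 0 S)
      = ENNReal.ofReal ((Real.sqrt (2 * Real.pi * (v + S)))⁻¹)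
        * ∫⁻ x, ENNReal.ofReal |c * x + w| ∂(gaussianReal 0 (v * S / (v + S))) := by
    intro w
    have hg1 := measurable_gaussianPDF 0 v
    have hg2 := measurable_gaussianPDF 0 S
    have hg3 := measurable_gaussianPDF 0 (v * S / (v + S))
    rw [gaussianReal_of_var_ne_zero _ hS, gaussianReal_of_var_ne_zero _ hvS,
      lintegral_withDensity_eq_lintegral_mul _ hg2 (by fun_prop),
      lintegral_withDensity_eq_lintegral_mul _ hg3 (by fun_prop),
      ← lintegral_const_mul _ (by fun_prop)]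
    apply lintegral_congr
    intro x
    simp only [Pi.mul_apply]
    calc _ = ENNReal.ofReal |c * x + w| * (gaussianPDF 0 v x * gaussianPDF 0 S x) := by ring
      _ = _ := by rw [prod_pdf v S hv hS]; ring
  simp only [h1]
  rw [lintegral_const_mul _ (by
    apply Measurable.lintegral_prod_right'
      (f := fun p : ℝ × ℝ => ENNReal.ofReal |c * p.2 + p.1|)
    fun_prop)]
  have h2 : ∫⁻ w, ∫⁻ x, ENNReal.ofReal |c * x + w| ∂(gaussianReal 0 (v * S / (v + S))) ∂(gaussianReal 0 W)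
      = ∫⁻ y, ENNReal.ofReal |y| ∂(gaussianReal 0 ((NNReal.mk (c ^ 2) (sq_nonneg _)) * (v * S / (v + S)) + W)) := by
    have e1 := gaussianReal_conv_gaussianReal (m₁ := 0) (m₂ := 0)
      (v₁ := (NNReal.mk (c ^ 2) (sq_nonneg _)) * (v * S / (v + S))) (v₂ := W)
    rw [add_zero] at e1
    rw [← e1, Measure.conv, lintegral_map (by fun_prop) (by fun_prop),
      lintegral_prod_symm' _ (by fun_prop)]
    apply lintegral_congr
    intro w
    have e2 := gaussianReal_map_const_mul (μ := 0) (v := v * S / (v + S)) c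
    rw [mul_zero] at e2
    rw [← e2, lintegral_map (by fun_prop) (by fun_prop)]
  rw [h2, lint_abs_gauss, ← ENNReal.ofReal_mul (by positivity)]
  congr 1
  push_cast
  have e3 : Real.sqrt (2 * Real.pi * ((v : ℝ) + S)) = Real.sqrt (2 * Real.pi) * Real.sqrt (v + S) :=
    Real.sqrt_mul (by positivity) _
  rw [e3, Real.sqrt_div (by norm_num), Real.sqrt_mul (by norm_num)]
  have h5 : Real.sqrt Real.pi ^ 2 = Real.pi := Real.sq_sqrt Real.pi_pos.le
  have h3 : 0 < Real.sqrt 2 := by positivity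
  have h4 : 0 < Real.sqrt Real.pi := Real.sqrt_pos.2 Real.pi_pos
  have h6 : 0 < Real.sqrt ((v : ℝ) + S) := by positivity
  have h7 : (Real.pi)⁻¹ = (Real.sqrt Real.pi)⁻¹ * (Real.sqrt Real.pi)⁻¹ := by
    rw [← mul_inv, ← sq, h5]
  rw [one_div, h7]
  field_simp

end Q298.KacU
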