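import Mathlib
import Pool.Agent.Helper764.KacDefs
import Pool.Agent.Q298.KacU.GA

set_option autoImplicit false
set_option maxHeartbeats 4000000
open MeasureTheory ProbabilityTheory Filter Topology Set
open scoped ENNReal NNReal

namespace Q298.KacU
open Kac764

/-- law of an i.i.d. standard Gaussian sequence -/
noncomputable abbrev GG : Measure (ℕ → ℝ) := PP (gaussianReal 0 1)

theorem gg_indep : iIndepFun (fun (i : ℕ) (g : ℕ → ℝ) => g i) GG :=
  iIndepFun_infinitePi (P := fun _ : ℕ => gaussianReal 0 1) (X := fun _ x => x) (by fun_prop)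

theorem gg_law (i : ℕ) : GG.map (fun g => g i) = gaussianReal 0 1 :=
  Measure.infinitePi_map_eval _ i

theorem gg_hasGaussian (i : ℕ) : HasGaussianLaw (fun g : ℕ → ℝ => g i) GG := by
  constructor
  rw [gg_law]
  infer_instance

theorem gg_memLp (i : ℕ) : MemLp (fun g : ℕ → ℝ => g i) 2 GG := (gg_hasGaussian i).memLp_two

theorem gg_cov (i j : ℕ) : cov[fun g : ℕ → ℝ => g i, fun g : ℕ → ℝ => g j; GG] = if i = j then 1 else 0 := by
  split_ifs with h
  · subst h
    rw [covariance_self (measurable_pi_apply i).aemeasurable]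
    have h2 : Var[fun x => x; GG.map (fun g : ℕ → ℝ => g i)] = 1 := by
      rw [gg_law, variance_fun_id_gaussianReal]
      simp
    have h3 := variance_map (μ := GG) (X := fun x : ℝ => x) (Y := fun g : ℕ → ℝ => g i)
      (by fun_prop) (measurable_pi_apply i).aemeasurable
    rw [h3] at h2
    exact h2
  · exact (gg_indep.indepFun h).covariance_eq_zero (gg_memLp i) (gg_memLp j)

theorem gg_mean (i : ℕ) : ∫ g : ℕ → ℝ, g i ∂GG = 0 := by
  have h := integral_id_gaussianReal (μ := 0) (v := 1)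
  rw [← gg_law i, integral_map (measurable_pi_apply i).aemeasurable (by fun_prop)] at h
  exact h

theorem gg_cov_sum (s : Finset ℕ) (α β : ℕ → ℝ) :
    cov[fun g : ℕ → ℝ => ∑ k ∈ s, α k * g k, fun g : ℕ → ℝ => ∑ k ∈ s, β k * g k; GG]
      = ∑ k ∈ s, α k * β k := by
  rw [covariance_fun_sum_fun_sum' (fun i _ => (gg_memLp i).const_mul _) (fun i _ => (gg_memLp i).const_mul _)]
  apply Finset.sum_congr rfl
  intro i hi
  have : ∀ j ∈ s, cov[fun g : ℕ → ℝ => α i * g i, fun g : ℕ → ℝ => β j * g j; GG]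
      = if i = j then α i * β i else 0 := by
    intro j _
    rw [covariance_const_mul_left, covariance_const_mul_right, gg_cov]
    split_ifs with h
    · subst h; ring
    · ring
  rw [Finset.sum_congr rfl this, Finset.sum_ite_eq, if_pos hi]

theorem gg_mean_sum (s : Finset ℕ) (α : ℕ → ℝ) : ∫ g : ℕ → ℝ, ∑ k ∈ s, α k * g k ∂GG = 0 := by
  rw [integral_finsetSum _ (fun i _ => ((gg_memLp i).integrable (by norm_num)).const_mul _)]
  apply Finset.sum_eq_zero
  intro i _
  rw [integral_const_mul, gg_mean, mul_zero]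

theorem gg_joint (s : Finset ℕ) (α β : ℕ → ℝ) :
    HasGaussianLaw (fun g : ℕ → ℝ => (∑ k ∈ s, α k * g k, ∑ k ∈ s, β k * g k)) GG := by
  have h0 : iIndepFun (fun (i : s) (g : ℕ → ℝ) => g i) GG :=
    gg_indep.precomp (g := fun i : s => (i : ℕ)) Subtype.val_injective
  have h1 : HasGaussianLaw (fun (g : ℕ → ℝ) (i : s) => g i) GG :=
    iIndepFun.hasGaussianLaw (X := fun (i : s) (g : ℕ → ℝ) => g i) (fun i => gg_hasGaussian i) h0
  let L : (s → ℝ) →L[ℝ] ℝ × ℝ :=
    ContinuousLinearMap.prod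
      (∑ i : s, (α i) • (ContinuousLinearMap.proj (R := ℝ) (φ := fun _ : s => ℝ) i))
      (∑ i : s, (β i) • (ContinuousLinearMap.proj (R := ℝ) (φ := fun _ : s => ℝ) i))
  have h2 := h1.map_fun L
  have h3 : (fun g : ℕ → ℝ => L (fun i : s => g i)) = fun g : ℕ → ℝ => (∑ k ∈ s, α k * g k, ∑ k ∈ s, β k * g k) := by
    funext g
    ext
    · simp only [L, ContinuousLinearMap.prod_apply, _root_.sum_apply,
        _root_.smul_apply, ContinuousLinearMap.proj_apply, smul_eq_mul]
      exact Finset.sum_coe_sort s (fun k => α k * g k)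
    · simp only [L, ContinuousLinearMap.prod_apply, _root_.sum_apply,
        _root_.smul_apply, ContinuousLinearMap.proj_apply, smul_eq_mul]
      exact Finset.sum_coe_sort s (fun k => β k * g k)
  rw [h3] at h2
  exact h2

theorem gg_map_prod (s : Finset ℕ) (α β : ℕ → ℝ) (h0 : ∑ k ∈ s, α k * β k = 0) :
    GG.map (fun g : ℕ → ℝ => (∑ k ∈ s, α k * g k, ∑ k ∈ s, β k * g k))
      = (gaussianReal 0 (∑ k ∈ s, α k ^ 2).toNNReal).prod (gaussianReal 0 (∑ k ∈ s, β k ^ 2).toNNReal) := by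
  have h1 := gg_joint s α β
  have h2 := h1.indepFun_of_covariance_eq_zero (by rw [gg_cov_sum]; exact h0)
  rw [indepFun_iff_map_prod_eq_prod_map_map h1.fst.aemeasurable h1.snd.aemeasurable] at h2
  rw [h2]
  have key : ∀ γ : ℕ → ℝ, HasGaussianLaw (fun g : ℕ → ℝ => ∑ k ∈ s, γ k * g k) GG →
      GG.map (fun g : ℕ → ℝ => ∑ k ∈ s, γ k * g k) = gaussianReal 0 (∑ k ∈ s, γ k ^ 2).toNNReal := by
    intro γ h
    rw [h.map_eq_gaussianReal, ← covariance_self h.aemeasurable, gg_cov_sum, gg_mean_sum]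
    congr 2
    apply Finset.sum_congr rfl
    intro i _
    ring
  rw [key α h1.fst, key β h1.snd]

/-- the bivariate Gaussian integral behind the Kac-Rice formula -/
theorem gg_kacrice (s : Finset ℕ) (α β : ℕ → ℝ) (v : ℝ≥0) (hv : v ≠ 0) (hS : 0 < ∑ k ∈ s, α k ^ 2) :
    ∫⁻ g, ENNReal.ofReal |∑ k ∈ s, β k * g k| * gaussianPDF 0 v (∑ k ∈ s, α k * g k) ∂GG
      = ENNReal.ofReal (1 / Real.pi * (Real.sqrt ((v + ∑ k ∈ s, α k ^ 2) * (∑ k ∈ s, β k ^ 2)
          - (∑ k ∈ s, α k * β k) ^ 2) / (v + ∑ k ∈ s, α k ^ 2))) := by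
  have hv' : (0 : ℝ) < v := by positivity
  set S := ∑ k ∈ s, α k ^ 2 with hSdef
  set R := ∑ k ∈ s, α k * β k with hRdef
  set T := ∑ k ∈ s, β k ^ 2 with hTdef
  set c := R / S with hc
  let δ : ℕ → ℝ := fun k => β k - c * α k
  have hW : ∑ k ∈ s, δ k ^ 2 = T - R ^ 2 / S := by
    have : ∑ k ∈ s, δ k ^ 2 = T - 2 * c * R + c ^ 2 * S := by
      rw [hTdef, hRdef, hSdef, Finset.mul_sum, Finset.mul_sum, ← Finset.sum_sub_distrib,
        ← Finset.sum_add_distrib]
      apply Finset.sum_congr rfl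
      intro k _
      simp only [δ]
      ring
    rw [this, hc]
    field_simp
    ring
  have h0 : ∑ k ∈ s, α k * δ k = 0 := by
    have : ∑ k ∈ s, α k * δ k = R - c * S := by
      rw [hRdef, hSdef, Finset.mul_sum, ← Finset.sum_sub_distrib]
      apply Finset.sum_congr rfl
      intro k _
      simp only [δ]
      ring
    rw [this, hc]
    field_simp
    ring
  have hmap := gg_map_prod s α δ h0
  have hS' : S.toNNReal ≠ 0 := by
    rw [ne_eq, Real.toNNReal_eq_zero, not_le]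
    exact hS
  have h2 := two_dim v S.toNNReal (∑ k ∈ s, δ k ^ 2).toNNReal hv hS' c
  rw [← hSdef] at hmap
  have hg := measurable_gaussianPDF 0 v
  rw [← hmap, lintegral_map (by fun_prop) (by fun_prop)] at h2
  have h3 : ∀ g : ℕ → ℝ, c * (∑ k ∈ s, α k * g k) + ∑ k ∈ s, δ k * g k = ∑ k ∈ s, β k * g k := by
    intro g
    rw [Finset.mul_sum, ← Finset.sum_add_distrib]
    apply Finset.sum_congr rfl
    intro k _
    simp only [δ]
    ring
  simp only [h3] at h2
  rw [h2]
  congr 1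
  rw [Real.coe_toNNReal _ hS.le, Real.coe_toNNReal _ (Finset.sum_nonneg fun k _ => sq_nonneg _), hW]
  have h4 : c ^ 2 * ((v : ℝ) * S / (v + S)) + (T - R ^ 2 / S) = ((v + S) * T - R ^ 2) / (v + S) := by
    rw [hc]
    field_simp
    ring
  rw [h4, Real.sqrt_div' _ (by positivity)]
  congr 1
  have h5 : Real.sqrt ((v : ℝ) + S) * Real.sqrt (v + S) = v + S := Real.mul_self_sqrt (by positivity)
  rw [div_div, h5]

end Q298.KacU
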