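import Mathlib
import Pool.Agent.Helper764.KacDefs
import Pool.Agent.Helper764.KacJ1
import Pool.Agent.Helper764.KacJ6
import Pool.Agent.Helper764.KacG1
import Pool.Agent.Helper764.KacK5
import Pool.Agent.Helper764.KacP6
import Pool.Agent.Q298.KacU.GB

set_option autoImplicit false
set_option maxHeartbeats 4000000
open MeasureTheory ProbabilityTheory Filter Topology Set
open scoped ENNReal NNReal

namespace Q298.KacU
open Kac764

/-- weighted sums -/
noncomputable def WA (n : ℕ) (w : ℕ → ℝ) (x : ℝ) : ℝ := ∑ k ∈ Finset.range (n + 1), w k * (x ^ k) ^ 2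
noncomputable def WB (n : ℕ) (w : ℕ → ℝ) (x : ℝ) : ℝ :=
  ∑ k ∈ Finset.range (n + 1), w k * (x ^ k * ((k : ℝ) * x ^ (k - 1)))
noncomputable def WC (n : ℕ) (w : ℕ → ℝ) (x : ℝ) : ℝ :=
  ∑ k ∈ Finset.range (n + 1), w k * ((k : ℝ) * x ^ (k - 1)) ^ 2

/-- Kac-Rice density for independent centred Gaussian coefficients with variances `w k` -/
noncomputable def dens (n : ℕ) (w : ℕ → ℝ) (x : ℝ) : ℝ :=
  1 / Real.pi * (Real.sqrt (WA n w x * WC n w x - WB n w x ^ 2) / WA n w x)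

theorem range_eq_insert (n : ℕ) : Finset.range (n + 1) = insert 0 (Finset.Icc 1 n) := by
  ext k
  simp only [Finset.mem_range, Finset.mem_insert, Finset.mem_Icc]
  omega

theorem sum_split (n : ℕ) (f : ℕ → ℝ) :
    ∑ k ∈ Finset.range (n + 1), f k = f 0 + ∑ k ∈ Finset.Icc 1 n, f k := by
  rw [range_eq_insert, Finset.sum_insert (by simp)]

theorem pdf_neg (v : ℝ≥0) (y : ℝ) : gaussianPDF 0 v (-y) = gaussianPDF 0 v y := by
  simp only [gaussianPDF, gaussianPDFReal, sub_zero, neg_sq]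

theorem measurable_scaled (n : ℕ) (c : ℕ → ℝ) (a b : ℝ) :
    Measurable (fun g : ℕ → ℝ => (nz (kac n (fun k => c k * g k)) (Ioo a b) : ℝ≥0∞)) := by
  have h1 := J6.measurable_nz n a b
  have h2 : Measurable (fun g : ℕ → ℝ => (fun k => c k * g k : ℕ → ℝ)) := by fun_prop
  exact (measurable_of_countable (fun k : ℕ => (k : ℝ≥0∞))).comp (h1.comp h2)

theorem meas_shift (n : ℕ) (a b : ℝ) (ω : ℕ → ℝ) :
    Measurable (fun y : ℝ => (nz (kac n ω + Polynomial.C y) (Ioo a b) : ℝ≥0∞)) := by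
  have h : Measurable (fun y : ℝ => ((y, ω) : ℝ × (ℕ → ℝ))) := by fun_prop
  have h2 := (K5.measurable_joint n a b).comp h
  simp only [Function.comp_def] at h2
  exact h2


theorem inner_map (n : ℕ) (c : ℝ) (v : ℝ≥0) (hv : v ≠ 0) (hcv : (v : ℝ) = c ^ 2) (a b : ℝ) (hab : a < b)
    (ω : ℕ → ℝ) :
    ∫⁻ z, (nz (kac n ω + Polynomial.C (c * z)) (Ioo a b) : ℝ≥0∞) ∂(gaussianReal 0 1)
      = ∫⁻ x in Ioo a b, ENNReal.ofReal |D1 n ω x| * gaussianPDF 0 v (D0 n ω x) := by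
  have e3 := gaussianReal_map_const_mul (μ := 0) (v := 1) c
  rw [mul_zero, mul_one] at e3
  have e4 : NNReal.mk (c ^ 2) (sq_nonneg c) = v := by
    ext
    rw [hcv]
    rfl
  rw [e4] at e3
  have e5 : ∫⁻ z, (nz (kac n ω + Polynomial.C (c * z)) (Ioo a b) : ℝ≥0∞) ∂(gaussianReal 0 1)
      = ∫⁻ y, (nz (kac n ω + Polynomial.C y) (Ioo a b) : ℝ≥0∞) ∂(gaussianReal 0 v) := by
    rw [← e3]
    exact (lintegral_map (meas_shift n a b ω) (by fun_prop)).symm
  have e6 : ∫⁻ y, (nz (kac n ω + Polynomial.C y) (Ioo a b) : ℝ≥0∞) ∂(gaussianReal 0 v)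
      = ∫⁻ y, (nz (kac n ω + Polynomial.C y) (Ioo a b) : ℝ≥0∞) * gaussianPDF 0 v y := by
    rw [gaussianReal_of_var_ne_zero _ hv,
      lintegral_withDensity_eq_lintegral_mul _ (measurable_gaussianPDF _ _) (meas_shift n a b ω)]
    apply lintegral_congr
    intro y
    rw [Pi.mul_apply, mul_comm]
  rw [e5, e6, J1.banach_indicatrix (kac n ω) a b hab (gaussianPDF 0 v) (measurable_gaussianPDF _ _)]
  apply lintegral_congr
  intro x
  rw [pdf_neg, P6.kac_deriv_eval, J6.kac_eval_10967, D0]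

theorem inner_rewrite (n : ℕ) (c g : ℕ → ℝ) (z : ℝ) :
    kac n (fun k => c k * (Function.update g 0 z) k)
      = kac n (Function.update (fun k => c k * g k) 0 0) + Polynomial.C (c 0 * z) := by
  rw [← K5.kac_update]
  congr 1
  funext k
  by_cases hk : k = 0
  · subst hk; simp
  · simp [hk]

theorem D0_upd (n : ℕ) (c g : ℕ → ℝ) (x : ℝ) :
    D0 n (Function.update (fun k => c k * g k) 0 0) x = ∑ k ∈ Finset.Icc 1 n, (c k * x ^ k) * g k := by
  unfold D0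
  rw [sum_split, Function.update_self, zero_mul, zero_add]
  apply Finset.sum_congr rfl
  intro k hk
  rw [Function.update_of_ne (by rw [Finset.mem_Icc] at hk; omega)]
  ring

theorem D1_upd (n : ℕ) (c g : ℕ → ℝ) (x : ℝ) :
    D1 n (Function.update (fun k => c k * g k) 0 0) x
      = ∑ k ∈ Finset.Icc 1 n, (c k * ((k : ℝ) * x ^ (k - 1))) * g k := by
  unfold D1
  rw [sum_split, Function.update_self, zero_mul, zero_add]
  apply Finset.sum_congr rfl
  intro k hk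
  rw [Function.update_of_ne (by rw [Finset.mem_Icc] at hk; omega)]
  ring

theorem dens_eq (n : ℕ) (c : ℕ → ℝ) (x : ℝ) :
    dens n (fun k => c k ^ 2) x
      = 1 / Real.pi * (Real.sqrt ((c 0 ^ 2 + ∑ k ∈ Finset.Icc 1 n, (c k * x ^ k) ^ 2)
          * (∑ k ∈ Finset.Icc 1 n, (c k * ((k : ℝ) * x ^ (k - 1))) ^ 2)
          - (∑ k ∈ Finset.Icc 1 n, (c k * x ^ k) * (c k * ((k : ℝ) * x ^ (k - 1)))) ^ 2)
          / (c 0 ^ 2 + ∑ k ∈ Finset.Icc 1 n, (c k * x ^ k) ^ 2)) := by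
  unfold dens WA WB WC
  rw [sum_split, sum_split, sum_split]
  have f1 : ∑ k ∈ Finset.Icc 1 n, c k ^ 2 * (x ^ k) ^ 2 = ∑ k ∈ Finset.Icc 1 n, (c k * x ^ k) ^ 2 :=
    Finset.sum_congr rfl fun k _ => by ring
  have f2 : ∑ k ∈ Finset.Icc 1 n, c k ^ 2 * ((k : ℝ) * x ^ (k - 1)) ^ 2
      = ∑ k ∈ Finset.Icc 1 n, (c k * ((k : ℝ) * x ^ (k - 1))) ^ 2 :=
    Finset.sum_congr rfl fun k _ => by ring
  have f3 : ∑ k ∈ Finset.Icc 1 n, c k ^ 2 * (x ^ k * ((k : ℝ) * x ^ (k - 1)))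
      = ∑ k ∈ Finset.Icc 1 n, (c k * x ^ k) * (c k * ((k : ℝ) * x ^ (k - 1))) :=
    Finset.sum_congr rfl fun k _ => by ring
  rw [f1, f2, f3]
  simp

theorem kacrice_c (n : ℕ) (hn : 1 ≤ n) (c : ℕ → ℝ) (hc : ∀ k, 0 < c k) (a b : ℝ) (hab : a < b) :
    ∫⁻ g, (nz (kac n (fun k => c k * g k)) (Ioo a b) : ℝ≥0∞) ∂GG
      = ∫⁻ x in Ioo a b, ENNReal.ofReal (dens n (fun k => c k ^ 2) x) := by
  obtain ⟨v, hcv⟩ : ∃ v : ℝ≥0, (v : ℝ) = c 0 ^ 2 := ⟨NNReal.mk (c 0 ^ 2) (sq_nonneg _), rfl⟩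
  have hv : v ≠ 0 := by
    intro h
    rw [h, NNReal.coe_zero] at hcv
    exact (pow_pos (hc 0) 2).ne hcv
  rw [← G1.x_lint_upd (gaussianReal 0 1) 0 (measurable_scaled n c a b)]
  have hin : ∀ g : ℕ → ℝ, ∫⁻ z, (nz (kac n (fun k => c k * (Function.update g 0 z) k)) (Ioo a b) : ℝ≥0∞) ∂(gaussianReal 0 1)
      = ∫⁻ x in Ioo a b, ENNReal.ofReal |∑ k ∈ Finset.Icc 1 n, (c k * ((k : ℝ) * x ^ (k - 1))) * g k|
          * gaussianPDF 0 v (∑ k ∈ Finset.Icc 1 n, (c k * x ^ k) * g k) := by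
    intro g
    simp only [inner_rewrite]
    rw [inner_map n (c 0) v hv hcv a b hab]
    simp only [D0_upd, D1_upd]
  simp only [hin]
  have hPr : IsProbabilityMeasure GG := by unfold GG PP; infer_instance
  have hmeas : AEMeasurable (Function.uncurry fun (g : ℕ → ℝ) (x : ℝ) =>
      ENNReal.ofReal |∑ k ∈ Finset.Icc 1 n, (c k * ((k : ℝ) * x ^ (k - 1))) * g k|
          * gaussianPDF 0 v (∑ k ∈ Finset.Icc 1 n, (c k * x ^ k) * g k))
      (GG.prod (volume.restrict (Ioo a b))) := by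
    have hg := measurable_gaussianPDF 0 v
    apply Measurable.aemeasurable
    have g1 : Measurable (fun p : (ℕ → ℝ) × ℝ => ∑ k ∈ Finset.Icc 1 n, (c k * ((k : ℝ) * p.2 ^ (k - 1))) * p.1 k) := by
      apply Finset.measurable_sum
      intro k _
      fun_prop
    have g2 : Measurable (fun p : (ℕ → ℝ) × ℝ => ∑ k ∈ Finset.Icc 1 n, (c k * p.2 ^ k) * p.1 k) := by
      apply Finset.measurable_sum
      intro k _
      fun_prop
    exact (ENNReal.measurable_ofReal.comp (g1.abs)).mul (hg.comp g2)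
  rw [lintegral_lintegral_swap hmeas]
  apply lintegral_congr_ae
  have hx0 : ∀ᵐ x : ℝ ∂(volume.restrict (Ioo a b)), x ≠ 0 := by
    apply ae_restrict_of_ae
    rw [ae_iff]
    simp
  filter_upwards [hx0] with x hx
  have hS : 0 < ∑ k ∈ Finset.Icc 1 n, (c k * x ^ k) ^ 2 := by
    apply Finset.sum_pos
    · intro k _
      have := (hc k).ne'
      positivity
    · exact ⟨1, by simp [hn]⟩
  rw [gg_kacrice (Finset.Icc 1 n) (fun k => c k * x ^ k) (fun k => c k * ((k : ℝ) * x ^ (k - 1))) v hv hS,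
    dens_eq, hcv]

end Q298.KacU
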