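import Mathlib
import Pool.Agent.Helper764.KacDefs
import Pool.Agent.Q298.KacU.GC

set_option autoImplicit false
set_option maxHeartbeats 4000000
open MeasureTheory ProbabilityTheory Filter Topology Set
open scoped ENNReal NNReal

namespace Q298.KacU
open Kac764

theorem pp_prod_map (ν γ : Measure ℝ) [IsProbabilityMeasure ν] [IsProbabilityMeasure γ]
    (f : ℝ × ℝ → ℝ) (hf : Measurable f) :
    ((PP ν).prod (PP γ)).map (fun p : (ℕ → ℝ) × (ℕ → ℝ) => (fun k => f (p.1 k, p.2 k) : ℕ → ℝ))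
      = PP ((ν.prod γ).map f) := by
  have hprob : IsProbabilityMeasure ((ν.prod γ).map f) :=
    Measure.isProbabilityMeasure_map hf.aemeasurable
  have hF : Measurable (fun p : (ℕ → ℝ) × (ℕ → ℝ) => (fun k => f (p.1 k, p.2 k) : ℕ → ℝ)) := by
    fun_prop
  refine Measure.eq_infinitePi _ fun s t ht => ?_
  have hbox : MeasurableSet (Set.pi (s : Set ℕ) t) := MeasurableSet.pi s.countable_toSet fun i _ => ht i
  rw [Measure.map_apply hF hbox, Measure.prod_apply (hF hbox)]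
  have h1 : ∀ u : ℕ → ℝ, (PP γ) (Prod.mk u ⁻¹' ((fun p : (ℕ → ℝ) × (ℕ → ℝ) => (fun k => f (p.1 k, p.2 k) : ℕ → ℝ)) ⁻¹' (Set.pi (s : Set ℕ) t)))
      = ∏ k ∈ s, γ {z | f (u k, z) ∈ t k} := by
    intro u
    have : (Prod.mk u ⁻¹' ((fun p : (ℕ → ℝ) × (ℕ → ℝ) => (fun k => f (p.1 k, p.2 k) : ℕ → ℝ)) ⁻¹' (Set.pi (s : Set ℕ) t)))
        = Set.pi (s : Set ℕ) (fun k => {z | f (u k, z) ∈ t k}) := by
      ext g
      simp [Set.mem_pi]
    rw [this]
    exact Measure.infinitePi_pi _ (fun k _ => by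
      have : Measurable (fun z => f (u k, z)) := by fun_prop
      exact this (ht k))
  simp only [h1]
  have hm : ∀ k : ℕ, Measurable (fun y : ℝ => γ {z | f (y, z) ∈ t k}) := by
    intro k
    exact measurable_measure_prodMk_left (hf (ht k))
  have hind : iIndepFun (fun (k : ℕ) (u : ℕ → ℝ) => γ {z | f (u k, z) ∈ t k}) (PP ν) :=
    iIndepFun_infinitePi (P := fun _ : ℕ => ν) (X := fun k x => γ {z | f (x, z) ∈ t k})
      (fun k => hm k)
  rw [lintegral_prod_eq_prod_lintegral_of_indepFun s (fun (k : ℕ) (u : ℕ → ℝ) => γ {z | f (u k, z) ∈ t k}) hind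
    (fun k => (hm k).comp (measurable_pi_apply k))]
  apply Finset.prod_congr rfl
  intro k _
  rw [Measure.map_apply hf (ht k), Measure.prod_apply (hf (ht k))]
  have h2 : (PP ν).map (fun u : ℕ → ℝ => u k) = ν := Measure.infinitePi_map_eval _ k
  conv_rhs => rw [← h2]
  rw [lintegral_map (by exact hm k) (measurable_pi_apply k)]
  rfl

/-- symmetric sign law -/
noncomputable def sgnLaw : Measure ℝ := (2⁻¹ : ℝ≥0∞) • Measure.dirac 1 + (2⁻¹ : ℝ≥0∞) • Measure.dirac (-1)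

instance : IsProbabilityMeasure sgnLaw := by
  constructor
  simp [sgnLaw, ENNReal.inv_two_add_inv_two]

/-- two-component Gaussian scale mixture with variances `1 + τ` and `1 - τ` -/
noncomputable def mixLaw (τ : ℝ) : Measure ℝ :=
  (2⁻¹ : ℝ≥0∞) • gaussianReal 0 (1 + τ).toNNReal + (2⁻¹ : ℝ≥0∞) • gaussianReal 0 (1 - τ).toNNReal

instance (τ : ℝ) : IsProbabilityMeasure (mixLaw τ) := by
  constructor
  simp [mixLaw, ENNReal.inv_two_add_inv_two]

/-- the scaling function -/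
noncomputable def sc (τ : ℝ) (p : ℝ × ℝ) : ℝ := Real.sqrt (1 + τ * p.1) * p.2

theorem measurable_sc (τ : ℝ) : Measurable (sc τ) := by
  unfold sc
  fun_prop

theorem mixLaw_eq (τ : ℝ) (h0 : 0 ≤ τ) (h1 : τ ≤ 1) :
    (sgnLaw.prod (gaussianReal 0 1)).map (sc τ) = mixLaw τ := by
  have key : ∀ y : ℝ, 0 ≤ y → (gaussianReal 0 1).map (fun z => Real.sqrt y * z) = gaussianReal 0 y.toNNReal := by
    intro y hy
    have e3 := gaussianReal_map_const_mul (μ := 0) (v := 1) (Real.sqrt y)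
    rw [mul_zero, mul_one] at e3
    rw [e3]
    congr 1
    ext
    rw [Real.coe_toNNReal _ hy]
    exact Real.sq_sqrt hy
  ext A hA
  rw [Measure.map_apply (measurable_sc τ) hA, Measure.prod_apply (measurable_sc τ hA)]
  have hm : ∀ y : ℝ, (gaussianReal 0 1) (Prod.mk y ⁻¹' (sc τ ⁻¹' A)) = ((gaussianReal 0 1).map (fun z => Real.sqrt (1 + τ * y) * z)) A := by
    intro y
    rw [Measure.map_apply (by fun_prop) hA]
    rfl
  have hmeas : Measurable fun y : ℝ => ((gaussianReal 0 1).map (fun z => Real.sqrt (1 + τ * y) * z)) A := by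
    have := measurable_measure_prodMk_left (ν := gaussianReal 0 1) (measurable_sc τ hA)
    simp only [hm] at this
    exact this
  simp only [hm]
  unfold sgnLaw mixLaw
  rw [lintegral_add_measure, lintegral_smul_measure, lintegral_smul_measure,
    lintegral_dirac' _ hmeas, lintegral_dirac' _ hmeas, key _ (by linarith), key _ (by linarith)]
  simp [mul_one, sub_eq_add_neg]

theorem pp_mix (τ : ℝ) (h0 : 0 ≤ τ) (h1 : τ ≤ 1) :
    ((PP sgnLaw).prod GG).map (fun p : (ℕ → ℝ) × (ℕ → ℝ) => (fun k => Real.sqrt (1 + τ * p.1 k) * p.2 k : ℕ → ℝ))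
      = PP (mixLaw τ) := by
  have := pp_prod_map sgnLaw (gaussianReal 0 1) (sc τ) (measurable_sc τ)
  rw [mixLaw_eq τ h0 h1] at this
  exact this

/-- sign sequences -/
theorem ae_sgn (k : ℕ) : ∀ᵐ u : ℕ → ℝ ∂(PP sgnLaw), u k = 1 ∨ u k = -1 := by
  have h : ∀ᵐ y ∂sgnLaw, y = 1 ∨ y = -1 := by
    unfold sgnLaw
    rw [ae_add_measure_iff]
    have hs : MeasurableSet {y : ℝ | y = 1 ∨ y = -1} := by
      have : {y : ℝ | y = 1 ∨ y = -1} = {1, -1} := by ext; simp
      rw [this]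
      exact (Set.toFinite _).measurableSet
    constructor
    · apply Measure.ae_smul_measure
      rw [ae_dirac_iff hs]
      exact Or.inl rfl
    · apply Measure.ae_smul_measure
      rw [ae_dirac_iff hs]
      exact Or.inr rfl
  have h2 : (PP sgnLaw).map (fun u : ℕ → ℝ => u k) = sgnLaw := Measure.infinitePi_map_eval _ k
  rw [← h2] at h
  exact ae_of_ae_map (measurable_pi_apply k).aemeasurable h

theorem ae_sgn_all : ∀ᵐ u : ℕ → ℝ ∂(PP sgnLaw), ∀ k, u k = 1 ∨ u k = -1 :=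
  ae_all_iff.2 ae_sgn

/-- Kac-Rice formula for the mixture -/
theorem kacrice_mix (n : ℕ) (hn : 1 ≤ n) (τ : ℝ) (h0 : 0 ≤ τ) (h1 : τ < 1) (a b : ℝ) (hab : a < b) :
    ∫⁻ ω, (nz (kac n ω) (Ioo a b) : ℝ≥0∞) ∂(PP (mixLaw τ))
      = ∫⁻ x in Ioo a b, ∫⁻ u, ENNReal.ofReal (dens n (fun k => 1 + τ * u k) x) ∂(PP sgnLaw) := by
  have hPr : IsProbabilityMeasure GG := by unfold GG PP; infer_instance
  have hPr2 : IsProbabilityMeasure (PP sgnLaw) := by unfold PP; infer_instance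
  have hm1 : Measurable (fun ω : ℕ → ℝ => (nz (kac n ω) (Ioo a b) : ℝ≥0∞)) :=
    (measurable_of_countable (fun k : ℕ => (k : ℝ≥0∞))).comp (J6.measurable_nz n a b)
  have hF : Measurable (fun p : (ℕ → ℝ) × (ℕ → ℝ) => (fun k => Real.sqrt (1 + τ * p.1 k) * p.2 k : ℕ → ℝ)) := by
    fun_prop
  have hm2 := (hm1.comp hF)
  simp only [Function.comp_def] at hm2
  rw [← pp_mix τ h0 h1.le, lintegral_map hm1 hF, lintegral_prod _ hm2.aemeasurable]
  have hkey : ∀ᵐ u : ℕ → ℝ ∂(PP sgnLaw),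
      ∫⁻ g, (nz (kac n (fun k => Real.sqrt (1 + τ * u k) * g k)) (Ioo a b) : ℝ≥0∞) ∂GG
        = ∫⁻ x in Ioo a b, ENNReal.ofReal (dens n (fun k => 1 + τ * u k) x) := by
    filter_upwards [ae_sgn_all] with u hu
    have hpos : ∀ k, 0 < 1 + τ * u k := by
      intro k
      rcases hu k with h | h <;> rw [h] <;> linarith
    rw [kacrice_c n hn (fun k => Real.sqrt (1 + τ * u k)) (fun k => Real.sqrt_pos.2 (hpos k)) a b hab]
    have : (fun k => Real.sqrt (1 + τ * u k) ^ 2) = fun k => 1 + τ * u k := by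
      funext k
      exact Real.sq_sqrt (hpos k).le
    rw [this]
  rw [lintegral_congr_ae hkey]
  apply lintegral_lintegral_swap
  apply Measurable.aemeasurable
  apply ENNReal.measurable_ofReal.comp
  unfold dens WA WB WC
  have m1 : Measurable (fun p : (ℕ → ℝ) × ℝ => ∑ k ∈ Finset.range (n + 1), (1 + τ * p.1 k) * (p.2 ^ k) ^ 2) :=
    Finset.measurable_sum _ fun k _ => by fun_prop
  have m2 : Measurable (fun p : (ℕ → ℝ) × ℝ => ∑ k ∈ Finset.range (n + 1), (1 + τ * p.1 k) * (p.2 ^ k * ((k : ℝ) * p.2 ^ (k - 1)))) :=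
    Finset.measurable_sum _ fun k _ => by fun_prop
  have m3 : Measurable (fun p : (ℕ → ℝ) × ℝ => ∑ k ∈ Finset.range (n + 1), (1 + τ * p.1 k) * ((k : ℝ) * p.2 ^ (k - 1)) ^ 2) :=
    Finset.measurable_sum _ fun k _ => by fun_prop
  exact measurable_const.mul (((m1.mul m3).sub (m2.pow_const 2)).sqrt.div m1)

/-- Kac-Rice formula for Gaussian coefficients -/
theorem kacrice_gauss (n : ℕ) (hn : 1 ≤ n) (a b : ℝ) (hab : a < b) :
    ∫⁻ ω, (nz (kac n ω) (Ioo a b) : ℝ≥0∞) ∂GG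
      = ∫⁻ x in Ioo a b, ENNReal.ofReal (rho n x) := by
  have h := kacrice_c n hn (fun _ => 1) (fun _ => one_pos) a b hab
  simp only [one_mul, one_pow] at h
  rw [h]
  apply lintegral_congr
  intro x
  congr 1
  unfold dens rho WA WB WC SA SB SC
  simp only [one_mul]
  ring

end Q298.KacU
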