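import Mathlib

set_option autoImplicit false
set_option maxHeartbeats 4000000
open Filter Topology Set

namespace Q298.KacU

theorem sqrt_lb (X : ℝ) (h1 : -(1 / 2) ≤ X) (h2 : X ≤ 1) : 1 + X / 2 - X ^ 2 / 5 ≤ Real.sqrt (1 + X) := by
  apply Real.le_sqrt_of_sq_le
  have h3 : 0 ≤ 3 / 20 + X / 5 - X ^ 2 / 25 := by nlinarith
  have h4 := mul_nonneg (sq_nonneg X) h3
  linarith

theorem core (τ a b d : ℝ) (h0 : 0 < τ) (h1 : τ ≤ 1 / 200) (ha : |a| ≤ 1) (hb : b ^ 2 ≤ 1) (hd : |d| ≤ 2) :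
    1 + τ * d / 2 - τ ^ 2 * (a * d / 2 + b ^ 2 / 2 + d ^ 2 / 5) - τ ^ 3 * (2 * a ^ 2 + 2 * b ^ 2 + d ^ 2)
      ≤ Real.sqrt ((1 + τ * a) * (1 + τ * (a + d)) - τ ^ 2 * b ^ 2) / (1 + τ * a) := by
  have hb0 : 0 ≤ b ^ 2 := sq_nonneg b
  have hτa0 : |τ * a| ≤ 1 / 200 := by
    rw [abs_mul, abs_of_pos h0]
    calc τ * |a| ≤ 1 / 200 * 1 := by gcongr
      _ = _ := by norm_num
  obtain ⟨hτa, hτa2⟩ := abs_le.1 hτa0
  have hpos : 0 < 1 + τ * a := by linarith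
  set y := 1 / (1 + τ * a) with hy
  have hy1 : y * (1 + τ * a) = 1 := by rw [hy]; field_simp
  have hy0 : 0 < y := by rw [hy]; positivity
  have hyu : y ≤ 200 / 199 := by
    rw [hy, div_le_div_iff₀ hpos (by norm_num)]
    linarith
  set X := τ * d * y - τ ^ 2 * b ^ 2 * y ^ 2 with hX
  have hfac : (1 + τ * a) * (1 + τ * (a + d)) - τ ^ 2 * b ^ 2 = (1 + τ * a) ^ 2 * (1 + X) := by
    have e : (1 + τ * a) ^ 2 * (1 + X) = (1 + τ * a) ^ 2 + τ * d * (1 + τ * a) * (y * (1 + τ * a))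
        - τ ^ 2 * b ^ 2 * (y * (1 + τ * a)) ^ 2 := by rw [hX]; ring
    rw [e, hy1]
    ring
  have hsq : Real.sqrt ((1 + τ * a) * (1 + τ * (a + d)) - τ ^ 2 * b ^ 2) / (1 + τ * a) = Real.sqrt (1 + X) := by
    rw [hfac, Real.sqrt_mul (by positivity), Real.sqrt_sq hpos.le]
    field_simp
  rw [hsq]
  have hτd : |τ * d * y| ≤ 0.02 := by
    rw [abs_mul, abs_mul, abs_of_pos h0, abs_of_pos hy0]
    calc τ * |d| * y ≤ 1 / 200 * 2 * (200 / 199) := by gcongr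
      _ ≤ _ := by norm_num
  obtain ⟨k1, k2⟩ := abs_le.1 hτd
  have hbt : τ ^ 2 * b ^ 2 * y ^ 2 ≤ 0.001 := by
    calc τ ^ 2 * b ^ 2 * y ^ 2 ≤ (1 / 200) ^ 2 * 1 * (200 / 199) ^ 2 := by gcongr
      _ ≤ _ := by norm_num
  have hbt0 : 0 ≤ τ ^ 2 * b ^ 2 * y ^ 2 := by positivity
  have hX1 : -(1 / 2) ≤ X := by rw [hX]; linarith
  have hX2 : X ≤ 1 := by rw [hX]; linarith
  refine le_trans ?_ (sqrt_lb X hX1 hX2)
  have hyexp : y = 1 - τ * a + τ ^ 2 * a ^ 2 * y := by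
    linear_combination (1 - τ * a) * hy1
  have hdy : |d * y| ≤ 2.02 := by
    rw [abs_mul, abs_of_pos hy0]
    calc |d| * y ≤ 2 * (200 / 199) := by gcongr
      _ ≤ _ := by norm_num
  have n1 : 0 ≤ τ ^ 3 * a ^ 2 := by positivity
  have n2 : 0 ≤ τ ^ 3 * b ^ 2 := by positivity
  have n3 : 0 ≤ τ ^ 3 * d ^ 2 := by positivity
  have t1 : -(1.01 * (τ ^ 3 * a ^ 2)) ≤ τ ^ 3 * a ^ 2 * (d * y) / 2 := by
    have e1 := mul_le_mul_of_nonneg_left (abs_le.1 hdy).1 n1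
    linarith
  have t2 : y ^ 2 - 1 ≤ 2.02 * τ := by
    have e1 : y ^ 2 - 1 = -(τ * a) * (y * (y + 1)) := by
      linear_combination (-(y + 1)) * (-1 : ℝ) * hy1
    rw [e1]
    have e3 : y * (y + 1) ≤ 2.02 := by
      calc y * (y + 1) ≤ 200 / 199 * (200 / 199 + 1) := by gcongr
        _ ≤ _ := by norm_num
    have e4 : -(τ * a) ≤ τ := by
      have := mul_le_mul_of_nonneg_left (abs_le.1 ha).1 h0.le
      linarith
    calc -(τ * a) * (y * (y + 1)) ≤ τ * (y * (y + 1)) := by gcongr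
      _ ≤ τ * 2.02 := by gcongr
      _ = _ := by ring
  have t3 : τ ^ 2 * b ^ 2 * (y ^ 2 - 1) ≤ 2.02 * (τ ^ 3 * b ^ 2) := by
    calc τ ^ 2 * b ^ 2 * (y ^ 2 - 1) ≤ τ ^ 2 * b ^ 2 * (2.02 * τ) := by gcongr
      _ = _ := by ring
  have t4 : τ ^ 2 * d ^ 2 * (y ^ 2 - 1) ≤ 2.02 * (τ ^ 3 * d ^ 2) := by
    calc τ ^ 2 * d ^ 2 * (y ^ 2 - 1) ≤ τ ^ 2 * d ^ 2 * (2.02 * τ) := by gcongr
      _ = _ := by ring
  have t5 : -(2 * (τ ^ 3 * (d * b ^ 2 * y ^ 3))) ≤ 4.2 * (τ ^ 3 * b ^ 2) := by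
    have e3 : |d * y ^ 3| ≤ 2.1 := by
      rw [abs_mul, abs_of_pos (show 0 < y ^ 3 by positivity)]
      calc |d| * y ^ 3 ≤ 2 * (200 / 199) ^ 3 := by gcongr
        _ ≤ _ := by norm_num
    have e4 := mul_le_mul_of_nonneg_left (abs_le.1 e3).1 n2
    linarith
  have t6 : τ ^ 4 * b ^ 4 * y ^ 4 ≤ 0.1 * (τ ^ 3 * b ^ 2) := by
    have e3 : τ * b ^ 2 * y ^ 4 ≤ 0.1 := by
      calc τ * b ^ 2 * y ^ 4 ≤ 1 / 200 * 1 * (200 / 199) ^ 4 := by gcongr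
        _ ≤ _ := by norm_num
    have e4 := mul_le_mul_of_nonneg_left e3 n2
    linarith
  have hXsq : X ^ 2 = τ ^ 2 * d ^ 2 * y ^ 2 - 2 * (τ ^ 3 * (d * b ^ 2 * y ^ 3)) + τ ^ 4 * b ^ 4 * y ^ 4 := by
    rw [hX]; ring
  have hXlin : X / 2 = τ * d / 2 - τ ^ 2 * (a * d) / 2 + τ ^ 3 * a ^ 2 * (d * y) / 2 - τ ^ 2 * b ^ 2 * y ^ 2 / 2 := by
    have : τ * d * y = τ * d * (1 - τ * a + τ ^ 2 * a ^ 2 * y) := by rw [← hyexp]
    rw [hX, this]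
    ring
  rw [hXsq, hXlin]
  linarith

end Q298.KacU
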