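import Mathlib
import Pool.Agent.Q298.KacU.GD
import Pool.Agent.Q298.KacU.VA

set_option autoImplicit false
set_option maxHeartbeats 4000000
open MeasureTheory ProbabilityTheory Filter Topology Set
open scoped ENNReal NNReal

namespace Q298.KacU
open Kac764

instance : IsProbabilityMeasure (PP sgnLaw) := by unfold PP; infer_instance

theorem sg_mean (i : ℕ) : ∫ u : ℕ → ℝ, u i ∂(PP sgnLaw) = 0 := by
  have h2 : (PP sgnLaw).map (fun u : ℕ → ℝ => u i) = sgnLaw := Measure.infinitePi_map_eval _ i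
  have h3 : ∫ y, y ∂sgnLaw = 0 := by
    unfold sgnLaw
    rw [integral_add_measure, integral_smul_measure, integral_smul_measure, integral_dirac, integral_dirac]
    · simp
    · apply Integrable.smul_measure _ (by simp)
      exact integrable_dirac (by simp)
    · apply Integrable.smul_measure _ (by simp)
      exact integrable_dirac (by simp)
  rw [← h2, integral_map (measurable_pi_apply i).aemeasurable (by fun_prop)] at h3
  exact h3

theorem sg_int2 (i j : ℕ) : Integrable (fun u : ℕ → ℝ => u i * u j) (PP sgnLaw) := by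
  refine Integrable.of_bound (by
    apply Measurable.aestronglyMeasurable
    exact (measurable_pi_apply i).mul (measurable_pi_apply j)) 1 ?_
  filter_upwards [ae_sgn i, ae_sgn j] with u h1 h2
  rcases h1 with h1 | h1 <;> rcases h2 with h2 | h2 <;> rw [h1, h2] <;> norm_num

theorem sg_int1 (i : ℕ) : Integrable (fun u : ℕ → ℝ => u i) (PP sgnLaw) := by
  refine Integrable.of_bound (measurable_pi_apply i).aestronglyMeasurable 1 ?_
  filter_upwards [ae_sgn i] with u h1
  rcases h1 with h1 | h1 <;> rw [h1] <;> norm_num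

theorem sg_two (i j : ℕ) : ∫ u : ℕ → ℝ, u i * u j ∂(PP sgnLaw) = if i = j then 1 else 0 := by
  split_ifs with h
  · subst h
    have : ∀ᵐ u : ℕ → ℝ ∂(PP sgnLaw), u i * u i = 1 := by
      filter_upwards [ae_sgn i] with u h1
      rcases h1 with h1 | h1 <;> rw [h1] <;> norm_num
    rw [integral_congr_ae this]
    simp
  · have hind : iIndepFun (fun (k : ℕ) (u : ℕ → ℝ) => u k) (PP sgnLaw) :=
      iIndepFun_infinitePi (P := fun _ : ℕ => sgnLaw) (X := fun k x => x) (by fun_prop)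
    have := (hind.indepFun h).integral_fun_mul_eq_mul_integral
      (measurable_pi_apply i).aestronglyMeasurable (measurable_pi_apply j).aestronglyMeasurable
    rw [this, sg_mean, zero_mul]

theorem sg_sum_expand (s : Finset ℕ) (α β : ℕ → ℝ) (u : ℕ → ℝ) :
    (∑ k ∈ s, α k * u k) * (∑ k ∈ s, β k * u k) = ∑ i ∈ s, ∑ j ∈ s, (α i * β j) * (u i * u j) := by
  rw [Finset.sum_mul_sum]
  apply Finset.sum_congr rfl
  intro i _
  apply Finset.sum_congr rfl
  intro j _
  ring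

theorem sg_prod_int (s : Finset ℕ) (α β : ℕ → ℝ) :
    Integrable (fun u : ℕ → ℝ => (∑ k ∈ s, α k * u k) * (∑ k ∈ s, β k * u k)) (PP sgnLaw) := by
  simp only [sg_sum_expand]
  apply integrable_finsetSum
  intro i _
  apply integrable_finsetSum
  intro j _
  exact (sg_int2 i j).const_mul _

theorem sg_prod (s : Finset ℕ) (α β : ℕ → ℝ) :
    ∫ u : ℕ → ℝ, (∑ k ∈ s, α k * u k) * (∑ k ∈ s, β k * u k) ∂(PP sgnLaw) = ∑ k ∈ s, α k * β k := by
  simp only [sg_sum_expand]
  rw [integral_finsetSum _ (fun i _ => integrable_finsetSum _ fun j _ => (sg_int2 i j).const_mul _)]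
  apply Finset.sum_congr rfl
  intro i hi
  rw [integral_finsetSum _ (fun j _ => (sg_int2 i j).const_mul _)]
  have : ∀ j ∈ s, ∫ u : ℕ → ℝ, (α i * β j) * (u i * u j) ∂(PP sgnLaw) = if i = j then α i * β i else 0 := by
    intro j _
    rw [integral_const_mul, sg_two]
    split_ifs with h
    · subst h; ring
    · ring
  rw [Finset.sum_congr rfl this, Finset.sum_ite_eq, if_pos hi]

theorem sg_lin_int (s : Finset ℕ) (α : ℕ → ℝ) :
    Integrable (fun u : ℕ → ℝ => ∑ k ∈ s, α k * u k) (PP sgnLaw) :=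
  integrable_finsetSum _ fun i _ => (sg_int1 i).const_mul _

theorem sg_lin (s : Finset ℕ) (α : ℕ → ℝ) : ∫ u : ℕ → ℝ, ∑ k ∈ s, α k * u k ∂(PP sgnLaw) = 0 := by
  rw [integral_finsetSum _ (fun i _ => (sg_int1 i).const_mul _)]
  apply Finset.sum_eq_zero
  intro i _
  rw [integral_const_mul, sg_mean, mul_zero]

/-- the lower-bound functional -/
noncomputable def LB (τ : ℝ) (s : Finset ℕ) (α β δ : ℕ → ℝ) (u : ℕ → ℝ) : ℝ :=
  1 + τ * (∑ k ∈ s, δ k * u k) / 2
    - τ ^ 2 * ((∑ k ∈ s, α k * u k) * (∑ k ∈ s, δ k * u k) / 2 + (∑ k ∈ s, β k * u k) ^ 2 / 2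
      + (∑ k ∈ s, δ k * u k) ^ 2 / 5)
    - τ ^ 3 * (2 * (∑ k ∈ s, α k * u k) ^ 2 + 2 * (∑ k ∈ s, β k * u k) ^ 2 + (∑ k ∈ s, δ k * u k) ^ 2)

theorem LB_eq (τ : ℝ) (s : Finset ℕ) (α β δ : ℕ → ℝ) (u : ℕ → ℝ) :
    LB τ s α β δ u = 1 + (τ / 2) * (∑ k ∈ s, δ k * u k)
      + (-(τ ^ 2 / 2)) * ((∑ k ∈ s, α k * u k) * (∑ k ∈ s, δ k * u k))
      + (-(τ ^ 2 / 2) - 2 * τ ^ 3) * ((∑ k ∈ s, β k * u k) * (∑ k ∈ s, β k * u k))
      + (-(τ ^ 2 / 5) - τ ^ 3) * ((∑ k ∈ s, δ k * u k) * (∑ k ∈ s, δ k * u k))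
      + (-(2 * τ ^ 3)) * ((∑ k ∈ s, α k * u k) * (∑ k ∈ s, α k * u k)) := by
  unfold LB
  ring

theorem LB_int (τ : ℝ) (s : Finset ℕ) (α β δ : ℕ → ℝ) : Integrable (LB τ s α β δ) (PP sgnLaw) := by
  have : LB τ s α β δ = fun u => _ := funext fun u => LB_eq τ s α β δ u
  rw [this]
  refine ((((Integrable.add ?_ ?_).add ?_).add ?_).add ?_).add ?_
  · exact integrable_const _
  · exact (sg_lin_int s δ).const_mul _
  · exact (sg_prod_int s α δ).const_mul _
  · exact (sg_prod_int s β β).const_mul _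
  · exact (sg_prod_int s δ δ).const_mul _
  · exact (sg_prod_int s α α).const_mul _

theorem LB_integral (τ : ℝ) (s : Finset ℕ) (α β δ : ℕ → ℝ) :
    ∫ u, LB τ s α β δ u ∂(PP sgnLaw) = 1 - τ ^ 2 * ((∑ k ∈ s, α k * δ k) / 2 + (∑ k ∈ s, β k * β k) / 2
      + (∑ k ∈ s, δ k * δ k) / 5)
      - τ ^ 3 * (2 * (∑ k ∈ s, α k * α k) + 2 * (∑ k ∈ s, β k * β k) + (∑ k ∈ s, δ k * δ k)) := by
  simp only [LB_eq]
  have i0 : Integrable (fun _ : ℕ → ℝ => (1 : ℝ)) (PP sgnLaw) := integrable_const _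
  have i1 := (sg_lin_int s δ).const_mul (τ / 2)
  have i2 := (sg_prod_int s α δ).const_mul (-(τ ^ 2 / 2))
  have i3 := (sg_prod_int s β β).const_mul (-(τ ^ 2 / 2) - 2 * τ ^ 3)
  have i4 := (sg_prod_int s δ δ).const_mul (-(τ ^ 2 / 5) - τ ^ 3)
  have i5 := (sg_prod_int s α α).const_mul (-(2 * τ ^ 3))
  have j1 := i0.add i1
  have j2 := j1.add i2
  have j3 := j2.add i3
  have j4 := j3.add i4
  rw [integral_add (by exact j4) i5, integral_add (by exact j3) i4, integral_add (by exact j2) i3,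
    integral_add (by exact j1) i2, integral_add i0 i1, integral_const_mul, integral_const_mul,
    integral_const_mul, integral_const_mul, integral_const_mul, sg_lin, sg_prod, sg_prod, sg_prod, sg_prod]
  simp
  ring

end Q298.KacU
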