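import Mathlib
import Pool.Agent.Q298.KacU.VB

set_option autoImplicit false
set_option maxHeartbeats 4000000
open MeasureTheory ProbabilityTheory Filter Topology Set
open scoped ENNReal NNReal

namespace Q298.KacU
open Kac764

/-! ### weighted averages against a probability vector `p` on `range (n+1)` -/

section abstract
variable (n : ℕ) (p : ℕ → ℝ)

noncomputable def mm : ℝ := ∑ k ∈ Finset.range (n + 1), p k * k
noncomputable def vv : ℝ := ∑ k ∈ Finset.range (n + 1), p k * ((k : ℝ) - mm n p) ^ 2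
noncomputable def bet (k : ℕ) : ℝ := p k * (((k : ℝ) - mm n p) / Real.sqrt (vv n p))
noncomputable def del (k : ℕ) : ℝ := p k * (((k : ℝ) - mm n p) ^ 2 / vv n p - 1)

variable (hp : ∀ k, 0 < p k) (hsum : ∑ k ∈ Finset.range (n + 1), p k = 1)

include hp in
theorem vv_pos (hn : 1 ≤ n) : 0 < vv n p := by
  unfold vv
  have h0 : ∀ k ∈ Finset.range (n + 1), 0 ≤ p k * ((k : ℝ) - mm n p) ^ 2 := fun k _ =>
    mul_nonneg (hp k).le (sq_nonneg _)
  rcases (Finset.sum_nonneg h0).lt_or_eq with h | h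
  · exact h
  · exfalso
    rw [eq_comm, Finset.sum_eq_zero_iff_of_nonneg h0] at h
    have e0 := h 0 (by simp)
    have e1 := h 1 (by simp; omega)
    have f0 := (mul_eq_zero.1 e0).resolve_left (hp 0).ne'
    have f1 := (mul_eq_zero.1 e1).resolve_left (hp 1).ne'
    rw [sq_eq_zero_iff] at f0 f1
    push_cast at f0 f1
    linarith

include hsum in
theorem sum_centered : ∑ k ∈ Finset.range (n + 1), p k * ((k : ℝ) - mm n p) = 0 := by
  have : ∑ k ∈ Finset.range (n + 1), p k * ((k : ℝ) - mm n p)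
      = ∑ k ∈ Finset.range (n + 1), p k * k - (∑ k ∈ Finset.range (n + 1), p k) * mm n p := by
    rw [Finset.sum_mul, ← Finset.sum_sub_distrib]
    exact Finset.sum_congr rfl fun k _ => by ring
  rw [this, hsum, one_mul, mm, sub_self]

variable (u : ℕ → ℝ) (hu : ∀ k, u k = 1 ∨ u k = -1)

include hu in
theorem abs_u (k : ℕ) : |u k| = 1 := by
  rcases hu k with h | h <;> rw [h] <;> simp

include hp hsum hu in
theorem abs_a : |∑ k ∈ Finset.range (n + 1), p k * u k| ≤ 1 := by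
  refine (Finset.abs_sum_le_sum_abs _ _).trans ?_
  rw [← hsum]
  apply Finset.sum_le_sum
  intro k _
  rw [abs_mul, abs_u u hu, mul_one, abs_of_pos (hp k)]

omit hsum in
include hp in
theorem sum_sq (hn : 1 ≤ n) : ∑ k ∈ Finset.range (n + 1), p k * (((k : ℝ) - mm n p) ^ 2 / vv n p) = 1 := by
  have h := vv_pos n p hp hn
  have : ∑ k ∈ Finset.range (n + 1), p k * (((k : ℝ) - mm n p) ^ 2 / vv n p) = vv n p / vv n p := by
    conv_rhs => rw [vv, Finset.sum_div]
    apply Finset.sum_congr rfl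
    intro k _
    rw [← vv]
    ring
  rw [this, div_self h.ne']

include hp hsum hu in
theorem abs_b (hn : 1 ≤ n) : (∑ k ∈ Finset.range (n + 1), bet n p k * u k) ^ 2 ≤ 1 := by
  have hv := vv_pos n p hp hn
  have h : |∑ k ∈ Finset.range (n + 1), bet n p k * u k| ≤ 1 := by
    refine (Finset.abs_sum_le_sum_abs _ _).trans ?_
    have : ∑ k ∈ Finset.range (n + 1), p k * ((((k : ℝ) - mm n p) ^ 2 / vv n p + 1) / 2) = 1 := by
      have : ∑ k ∈ Finset.range (n + 1), p k * ((((k : ℝ) - mm n p) ^ 2 / vv n p + 1) / 2)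
          = (∑ k ∈ Finset.range (n + 1), p k * (((k : ℝ) - mm n p) ^ 2 / vv n p)
            + ∑ k ∈ Finset.range (n + 1), p k) / 2 := by
        rw [← Finset.sum_add_distrib, Finset.sum_div]
        exact Finset.sum_congr rfl fun k _ => by ring
      rw [this, sum_sq n p hp hn, hsum]
      norm_num
    rw [← this]
    apply Finset.sum_le_sum
    intro k _
    rw [abs_mul, abs_u u hu, mul_one, bet, abs_mul, abs_of_pos (hp k)]
    apply mul_le_mul_of_nonneg_left _ (hp k).le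
    have e : ((k : ℝ) - mm n p) ^ 2 / vv n p = |((k : ℝ) - mm n p) / Real.sqrt (vv n p)| ^ 2 := by
      rw [sq_abs, div_pow, Real.sq_sqrt hv.le]
    rw [e]
    nlinarith [sq_nonneg (|((k : ℝ) - mm n p) / Real.sqrt (vv n p)| - 1)]
  rw [← sq_abs]
  exact pow_le_one₀ (abs_nonneg _) h

include hp hsum hu in
theorem abs_d (hn : 1 ≤ n) : |∑ k ∈ Finset.range (n + 1), del n p k * u k| ≤ 2 := by
  have hv := vv_pos n p hp hn
  refine (Finset.abs_sum_le_sum_abs _ _).trans ?_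
  have : ∑ k ∈ Finset.range (n + 1), p k * (((k : ℝ) - mm n p) ^ 2 / vv n p + 1) = 2 := by
    have : ∑ k ∈ Finset.range (n + 1), p k * (((k : ℝ) - mm n p) ^ 2 / vv n p + 1)
        = (∑ k ∈ Finset.range (n + 1), p k * (((k : ℝ) - mm n p) ^ 2 / vv n p)
          + ∑ k ∈ Finset.range (n + 1), p k) := by
      rw [← Finset.sum_add_distrib]
      exact Finset.sum_congr rfl fun k _ => by ring
    rw [this, sum_sq n p hp hn, hsum]
    norm_num
  rw [← this]
  apply Finset.sum_le_sum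
  intro k _
  rw [abs_mul, abs_u u hu, mul_one, del, abs_mul, abs_of_pos (hp k)]
  apply mul_le_mul_of_nonneg_left _ (hp k).le
  have : 0 ≤ ((k : ℝ) - mm n p) ^ 2 / vv n p := by positivity
  rw [abs_le]
  constructor <;> linarith

include hp hsum in
theorem ratio_form (hn : 1 ≤ n) (τ : ℝ) :
    (∑ k ∈ Finset.range (n + 1), p k * (1 + τ * u k)) * (∑ k ∈ Finset.range (n + 1), p k * (1 + τ * u k) * (k : ℝ) ^ 2)
      - (∑ k ∈ Finset.range (n + 1), p k * (1 + τ * u k) * k) ^ 2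
    = vv n p * ((1 + τ * (∑ k ∈ Finset.range (n + 1), p k * u k))
        * (1 + τ * ((∑ k ∈ Finset.range (n + 1), p k * u k) + ∑ k ∈ Finset.range (n + 1), del n p k * u k))
        - τ ^ 2 * (∑ k ∈ Finset.range (n + 1), bet n p k * u k) ^ 2) := by
  have hv := vv_pos n p hp hn
  set s := Finset.range (n + 1) with hs
  set m := mm n p with hm
  have e0 : ∑ k ∈ s, p k * (1 + τ * u k) = 1 + τ * ∑ k ∈ s, p k * u k := by
    have e : ∑ k ∈ s, p k * (1 + τ * u k) = ∑ k ∈ s, p k + τ * ∑ k ∈ s, p k * u k := by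
      rw [Finset.mul_sum, ← Finset.sum_add_distrib]
      exact Finset.sum_congr rfl fun k _ => by ring
    rw [e, hsum]
  have e1 : ∑ k ∈ s, p k * (1 + τ * u k) * ((k : ℝ) - m) ^ 2
      = vv n p * (1 + τ * ((∑ k ∈ s, p k * u k) + ∑ k ∈ s, del n p k * u k)) := by
    have h1 : ∑ k ∈ s, p k * (1 + τ * u k) * ((k : ℝ) - m) ^ 2
        = ∑ k ∈ s, p k * ((k : ℝ) - m) ^ 2 + τ * ∑ k ∈ s, p k * ((k : ℝ) - m) ^ 2 * u k := by
      rw [Finset.mul_sum, ← Finset.sum_add_distrib]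
      exact Finset.sum_congr rfl fun k _ => by ring
    have h2 : ∑ k ∈ s, p k * ((k : ℝ) - m) ^ 2 * u k
        = vv n p * ((∑ k ∈ s, p k * u k) + ∑ k ∈ s, del n p k * u k) := by
      rw [← Finset.sum_add_distrib, Finset.mul_sum]
      apply Finset.sum_congr rfl
      intro k _
      rw [del, ← hm]
      field_simp
      ring
    rw [h1, h2]
    have h3 : ∑ k ∈ s, p k * ((k : ℝ) - m) ^ 2 = vv n p := rfl
    rw [h3]
    ring
  have e2 : ∑ k ∈ s, p k * (1 + τ * u k) * ((k : ℝ) - m) = τ * (Real.sqrt (vv n p) * ∑ k ∈ s, bet n p k * u k) := by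
    have h1 : ∑ k ∈ s, p k * (1 + τ * u k) * ((k : ℝ) - m)
        = ∑ k ∈ s, p k * ((k : ℝ) - m) + τ * ∑ k ∈ s, p k * ((k : ℝ) - m) * u k := by
      rw [Finset.mul_sum, ← Finset.sum_add_distrib]
      exact Finset.sum_congr rfl fun k _ => by ring
    rw [h1, sum_centered n p hsum, zero_add]
    congr 1
    rw [Finset.mul_sum]
    apply Finset.sum_congr rfl
    intro k _
    rw [bet, ← hm]
    have : Real.sqrt (vv n p) ≠ 0 := (Real.sqrt_pos.2 hv).ne'
    field_simp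
  have e3 : ∑ k ∈ s, p k * (1 + τ * u k) * ((k : ℝ) - m) ^ 2
      = ∑ k ∈ s, p k * (1 + τ * u k) * (k : ℝ) ^ 2 - 2 * m * ∑ k ∈ s, p k * (1 + τ * u k) * k
        + m ^ 2 * ∑ k ∈ s, p k * (1 + τ * u k) := by
    rw [Finset.mul_sum, Finset.mul_sum, ← Finset.sum_sub_distrib, ← Finset.sum_add_distrib]
    exact Finset.sum_congr rfl fun k _ => by ring
  have e4 : ∑ k ∈ s, p k * (1 + τ * u k) * ((k : ℝ) - m)
      = ∑ k ∈ s, p k * (1 + τ * u k) * k - m * ∑ k ∈ s, p k * (1 + τ * u k) := by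
    rw [Finset.mul_sum, ← Finset.sum_sub_distrib]
    exact Finset.sum_congr rfl fun k _ => by ring
  have hvs : Real.sqrt (vv n p) ^ 2 = vv n p := Real.sq_sqrt hv.le
  rw [e1] at e3
  rw [e2] at e4
  rw [e0] at e3 e4 ⊢
  generalize (∑ k ∈ s, p k * u k) = a at *
  generalize (∑ k ∈ s, del n p k * u k) = d at *
  generalize (∑ k ∈ s, bet n p k * u k) = b at *
  generalize (∑ k ∈ s, p k * (1 + τ * u k) * (k : ℝ) ^ 2) = W2 at *
  generalize (∑ k ∈ s, p k * (1 + τ * u k) * (k : ℝ)) = W1 at *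
  have g1 : W1 = τ * (Real.sqrt (vv n p) * b) + m * (1 + τ * a) := by linarith
  have g2 : W2 = vv n p * (1 + τ * (a + d)) + 2 * m * W1 - m ^ 2 * (1 + τ * a) := by linarith
  rw [g2, g1]
  linear_combination (-(τ ^ 2 * b ^ 2)) * hvs

end abstract

/-- geometric weights -/
noncomputable def geo (n : ℕ) (z : ℝ) (k : ℕ) : ℝ := z ^ k / ∑ j ∈ Finset.range (n + 1), z ^ j

theorem geo_den_pos (n : ℕ) (z : ℝ) (hz : 0 < z) : 0 < ∑ j ∈ Finset.range (n + 1), z ^ j :=
  Finset.sum_pos (fun k _ => pow_pos hz k) ⟨0, by simp⟩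

theorem geo_pos (n : ℕ) (z : ℝ) (hz : 0 < z) (k : ℕ) : 0 < geo n z k :=
  div_pos (pow_pos hz k) (geo_den_pos n z hz)

theorem geo_sum (n : ℕ) (z : ℝ) (hz : 0 < z) : ∑ k ∈ Finset.range (n + 1), geo n z k = 1 := by
  unfold geo
  rw [← Finset.sum_div, div_self (geo_den_pos n z hz).ne']

/-- The Kac-Rice density in terms of the geometric weights. -/
theorem dens_form (n : ℕ) (hn : 1 ≤ n) (τ : ℝ) (h0 : 0 < τ) (h1 : τ ≤ 1 / 200) (x : ℝ) (hx : x ≠ 0)
    (u : ℕ → ℝ) (hu : ∀ k, u k = 1 ∨ u k = -1) :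
    dens n (fun k => 1 + τ * u k) x
      = 1 / Real.pi * (Real.sqrt (vv n (geo n (x ^ 2))) / |x|)
        * (Real.sqrt ((1 + τ * (∑ k ∈ Finset.range (n + 1), geo n (x ^ 2) k * u k))
        * (1 + τ * ((∑ k ∈ Finset.range (n + 1), geo n (x ^ 2) k * u k)
          + ∑ k ∈ Finset.range (n + 1), del n (geo n (x ^ 2)) k * u k))
        - τ ^ 2 * (∑ k ∈ Finset.range (n + 1), bet n (geo n (x ^ 2)) k * u k) ^ 2)
          / (1 + τ * (∑ k ∈ Finset.range (n + 1), geo n (x ^ 2) k * u k))) := by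
  have hz : 0 < x ^ 2 := by positivity
  set p := geo n (x ^ 2) with hp
  have hpp : ∀ k, 0 < p k := geo_pos n _ hz
  have hps : ∑ k ∈ Finset.range (n + 1), p k = 1 := geo_sum n _ hz
  set Z := ∑ j ∈ Finset.range (n + 1), (x ^ 2) ^ j with hZ
  have hZp : 0 < Z := geo_den_pos n _ hz
  have hpk : ∀ k, (x ^ 2) ^ k = Z * p k := by
    intro k
    rw [hp, geo, ← hZ]
    field_simp
  have hA : WA n (fun k => 1 + τ * u k) x = Z * ∑ k ∈ Finset.range (n + 1), p k * (1 + τ * u k) := by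
    unfold WA
    rw [Finset.mul_sum]
    apply Finset.sum_congr rfl
    intro k _
    rw [← pow_mul, mul_comm k 2, pow_mul, hpk]
    ring
  have hB : WB n (fun k => 1 + τ * u k) x = Z / x * ∑ k ∈ Finset.range (n + 1), p k * (1 + τ * u k) * k := by
    unfold WB
    rw [Finset.mul_sum]
    apply Finset.sum_congr rfl
    intro k _
    rcases Nat.eq_zero_or_pos k with hk | hk
    · subst hk; simp
    · have e : x ^ k * ((k : ℝ) * x ^ (k - 1)) = (x ^ 2) ^ k * k / x := by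
        have : x ^ k = x ^ (k - 1) * x := by rw [← pow_succ]; congr 1; omega
        have h2 : (x ^ 2) ^ k = x ^ k * x ^ k := by ring
        rw [h2]
        nth_rewrite 3 [this]
        field_simp
      rw [e, hpk]
      ring
  have hC : WC n (fun k => 1 + τ * u k) x = Z / x ^ 2 * ∑ k ∈ Finset.range (n + 1), p k * (1 + τ * u k) * (k : ℝ) ^ 2 := by
    unfold WC
    rw [Finset.mul_sum]
    apply Finset.sum_congr rfl
    intro k _
    rcases Nat.eq_zero_or_pos k with hk | hk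
    · subst hk; simp
    · have e : ((k : ℝ) * x ^ (k - 1)) ^ 2 = (x ^ 2) ^ k * (k : ℝ) ^ 2 / x ^ 2 := by
        have : x ^ k = x ^ (k - 1) * x := by rw [← pow_succ]; congr 1; omega
        have h2 : (x ^ 2) ^ k = (x ^ k) ^ 2 := by ring
        rw [h2, this]
        field_simp
      rw [e, hpk]
      ring
  have hr := ratio_form n p hpp hps u hn τ
  have ha := abs_a n p hpp hps u hu
  have hv := vv_pos n p hpp hn
  have e0 : ∑ k ∈ Finset.range (n + 1), p k * (1 + τ * u k) = 1 + τ * ∑ k ∈ Finset.range (n + 1), p k * u k := by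
    have e : ∑ k ∈ Finset.range (n + 1), p k * (1 + τ * u k)
        = ∑ k ∈ Finset.range (n + 1), p k + τ * ∑ k ∈ Finset.range (n + 1), p k * u k := by
      rw [Finset.mul_sum, ← Finset.sum_add_distrib]
      exact Finset.sum_congr rfl fun k _ => by ring
    rw [e, hps]
  unfold dens
  rw [hA, hB, hC]
  have e5 : Z * (∑ k ∈ Finset.range (n + 1), p k * (1 + τ * u k)) * (Z / x ^ 2 * ∑ k ∈ Finset.range (n + 1), p k * (1 + τ * u k) * (k : ℝ) ^ 2)
      - (Z / x * ∑ k ∈ Finset.range (n + 1), p k * (1 + τ * u k) * k) ^ 2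
      = (Z / x) ^ 2 * ((∑ k ∈ Finset.range (n + 1), p k * (1 + τ * u k)) * (∑ k ∈ Finset.range (n + 1), p k * (1 + τ * u k) * (k : ℝ) ^ 2)
      - (∑ k ∈ Finset.range (n + 1), p k * (1 + τ * u k) * k) ^ 2) := by
    field_simp
  rw [e5, hr, Real.sqrt_mul (sq_nonneg _), Real.sqrt_sq_eq_abs, Real.sqrt_mul hv.le, abs_div, abs_of_pos hZp, e0]
  have hpos : 0 < 1 + τ * ∑ k ∈ Finset.range (n + 1), p k * u k := by
    have := mul_le_mul_of_nonneg_left (abs_le.1 ha).1 h0.le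
    linarith
  have hx' : 0 < |x| := abs_pos.2 hx
  field_simp

theorem dens_lb (n : ℕ) (hn : 1 ≤ n) (τ : ℝ) (h0 : 0 < τ) (h1 : τ ≤ 1 / 200) (x : ℝ) (hx : x ≠ 0)
    (u : ℕ → ℝ) (hu : ∀ k, u k = 1 ∨ u k = -1) :
    1 / Real.pi * (Real.sqrt (vv n (geo n (x ^ 2))) / |x|)
        * LB τ (Finset.range (n + 1)) (geo n (x ^ 2)) (bet n (geo n (x ^ 2))) (del n (geo n (x ^ 2))) u
      ≤ dens n (fun k => 1 + τ * u k) x := by
  have hz : 0 < x ^ 2 := by positivity
  rw [dens_form n hn τ h0 h1 x hx u hu]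
  apply mul_le_mul_of_nonneg_left
  · exact core τ _ _ _ h0 h1 (abs_a n _ (geo_pos n _ hz) (geo_sum n _ hz) u hu)
      (abs_b n _ (geo_pos n _ hz) (geo_sum n _ hz) u hu hn)
      (abs_d n _ (geo_pos n _ hz) (geo_sum n _ hz) u hu hn)
  · have := Real.pi_pos
    positivity

/-- finite-`n` lower bound for the averaged density -/
noncomputable def FN (n : ℕ) (τ x : ℝ) : ℝ :=
  1 / Real.pi * (Real.sqrt (vv n (geo n (x ^ 2))) / |x|) *
    (1 - τ ^ 2 * ((∑ k ∈ Finset.range (n + 1), geo n (x ^ 2) k * del n (geo n (x ^ 2)) k) / 2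
      + (∑ k ∈ Finset.range (n + 1), bet n (geo n (x ^ 2)) k * bet n (geo n (x ^ 2)) k) / 2
      + (∑ k ∈ Finset.range (n + 1), del n (geo n (x ^ 2)) k * del n (geo n (x ^ 2)) k) / 5)
      - τ ^ 3 * (2 * (∑ k ∈ Finset.range (n + 1), geo n (x ^ 2) k * geo n (x ^ 2) k)
        + 2 * (∑ k ∈ Finset.range (n + 1), bet n (geo n (x ^ 2)) k * bet n (geo n (x ^ 2)) k)
        + (∑ k ∈ Finset.range (n + 1), del n (geo n (x ^ 2)) k * del n (geo n (x ^ 2)) k)))

theorem ofReal_integral_le {Ω : Type*} [MeasurableSpace Ω] (P : Measure Ω) (f : Ω → ℝ) (hf : Integrable f P) :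
    ENNReal.ofReal (∫ ω, f ω ∂P) ≤ ∫⁻ ω, ENNReal.ofReal (f ω) ∂P := by
  rw [integral_eq_lintegral_pos_part_sub_lintegral_neg_part hf]
  have h1 : ∫⁻ ω, ENNReal.ofReal (f ω) ∂P ≠ ⊤ := by
    have := hf.lintegral_lt_top
    exact this.ne
  refine (ENNReal.ofReal_le_ofReal (sub_le_self _ ENNReal.toReal_nonneg)).trans ?_
  rw [ENNReal.ofReal_toReal h1]

theorem lint_dens_ge (n : ℕ) (hn : 1 ≤ n) (τ : ℝ) (h0 : 0 < τ) (h1 : τ ≤ 1 / 200) (x : ℝ) (hx : x ≠ 0) :
    ENNReal.ofReal (FN n τ x) ≤ ∫⁻ u, ENNReal.ofReal (dens n (fun k => 1 + τ * u k) x) ∂(PP sgnLaw) := by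
  have hI := (LB_int τ (Finset.range (n + 1)) (geo n (x ^ 2)) (bet n (geo n (x ^ 2))) (del n (geo n (x ^ 2)))).const_mul
    (1 / Real.pi * (Real.sqrt (vv n (geo n (x ^ 2))) / |x|))
  have h := ofReal_integral_le (PP sgnLaw) _ hI
  rw [integral_const_mul, LB_integral] at h
  refine h.trans ?_
  apply lintegral_mono_ae
  filter_upwards [ae_sgn_all] with u hu
  exact ENNReal.ofReal_le_ofReal (dens_lb n hn τ h0 h1 x hx u hu)

end Q298.KacU
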