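import Mathlib
import Pool.Agent.Q298.KacU.VC

set_option autoImplicit false
set_option maxHeartbeats 4000000
open MeasureTheory ProbabilityTheory Filter Topology Set
open scoped ENNReal NNReal

namespace Q298.KacU
open Kac764

/-- partial power sums -/
noncomputable def PS (j n : ℕ) (z : ℝ) : ℝ := ∑ k ∈ Finset.range (n + 1), (k : ℝ) ^ j * z ^ k

theorem ps_summable (j : ℕ) (z : ℝ) (h0 : 0 ≤ z) (h1 : z < 1) : Summable (fun k : ℕ => (k : ℝ) ^ j * z ^ k) :=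
  summable_pow_mul_geometric_of_norm_lt_one j (by rw [Real.norm_eq_abs, abs_of_nonneg h0]; exact h1)

theorem ps_tendsto (j : ℕ) (z : ℝ) (h0 : 0 ≤ z) (h1 : z < 1) :
    Tendsto (fun n => PS j n z) atTop (𝓝 (∑' k : ℕ, (k : ℝ) ^ j * z ^ k)) := by
  have h := (ps_summable j z h0 h1).hasSum.tendsto_sum_nat
  exact (tendsto_add_atTop_iff_nat 1).2 h

theorem ps_lim (z : ℝ) (h0 : 0 ≤ z) (h1 : z < 1) :
    (∑' k : ℕ, (k : ℝ) ^ 0 * z ^ k) = 1 / (1 - z) ∧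
    (∑' k : ℕ, (k : ℝ) ^ 1 * z ^ k) = z / (1 - z) ^ 2 ∧
    (∑' k : ℕ, (k : ℝ) ^ 2 * z ^ k) = z * (1 + z) / (1 - z) ^ 3 ∧
    (∑' k : ℕ, (k : ℝ) ^ 3 * z ^ k) = z * (1 + 4 * z + z ^ 2) / (1 - z) ^ 4 ∧
    (∑' k : ℕ, (k : ℝ) ^ 4 * z ^ k) = z * (1 + 11 * z + 11 * z ^ 2 + z ^ 3) / (1 - z) ^ 5 := by
  have hs := fun j => ps_summable j z h0 h1
  have hz : (1 - z) ≠ 0 := by linarith
  have e0 : (∑' k : ℕ, (k : ℝ) ^ 0 * z ^ k) = 1 / (1 - z) := by
    simp only [pow_zero, one_mul]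
    rw [tsum_geometric_of_lt_one h0 h1, one_div]
  have e1 : (∑' k : ℕ, (k : ℝ) ^ 1 * z ^ k) = z * ((∑' k : ℕ, (k : ℝ) ^ 1 * z ^ k) + ∑' k : ℕ, (k : ℝ) ^ 0 * z ^ k) := by
    conv_lhs => rw [(hs 1).tsum_eq_zero_add]
    rw [← (hs 1).tsum_add (hs 0), ← tsum_mul_left]
    simp only [Nat.cast_zero]
    rw [zero_pow (by norm_num), zero_mul, zero_add]
    apply tsum_congr
    intro k
    push_cast
    ring
  have e2 : (∑' k : ℕ, (k : ℝ) ^ 2 * z ^ k) = z * ((∑' k : ℕ, (k : ℝ) ^ 2 * z ^ k)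
      + 2 * (∑' k : ℕ, (k : ℝ) ^ 1 * z ^ k) + ∑' k : ℕ, (k : ℝ) ^ 0 * z ^ k) := by
    conv_lhs => rw [(hs 2).tsum_eq_zero_add]
    rw [← tsum_mul_left (a := 2), ← (hs 2).tsum_add ((hs 1).mul_left 2),
      ← ((hs 2).add ((hs 1).mul_left 2)).tsum_add (hs 0), ← tsum_mul_left]
    simp only [Nat.cast_zero]
    rw [zero_pow (by norm_num), zero_mul, zero_add]
    apply tsum_congr
    intro k
    push_cast
    ring
  have e3 : (∑' k : ℕ, (k : ℝ) ^ 3 * z ^ k) = z * ((∑' k : ℕ, (k : ℝ) ^ 3 * z ^ k)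
      + 3 * (∑' k : ℕ, (k : ℝ) ^ 2 * z ^ k) + 3 * (∑' k : ℕ, (k : ℝ) ^ 1 * z ^ k) + ∑' k : ℕ, (k : ℝ) ^ 0 * z ^ k) := by
    conv_lhs => rw [(hs 3).tsum_eq_zero_add]
    rw [← tsum_mul_left (a := 3) (f := fun k : ℕ => (k : ℝ) ^ 2 * z ^ k), ← tsum_mul_left (a := 3),
      ← (hs 3).tsum_add ((hs 2).mul_left 3),
      ← ((hs 3).add ((hs 2).mul_left 3)).tsum_add ((hs 1).mul_left 3),
      ← (((hs 3).add ((hs 2).mul_left 3)).add ((hs 1).mul_left 3)).tsum_add (hs 0), ← tsum_mul_left]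
    simp only [Nat.cast_zero]
    rw [zero_pow (by norm_num), zero_mul, zero_add]
    apply tsum_congr
    intro k
    push_cast
    ring
  have e4 : (∑' k : ℕ, (k : ℝ) ^ 4 * z ^ k) = z * ((∑' k : ℕ, (k : ℝ) ^ 4 * z ^ k)
      + 4 * (∑' k : ℕ, (k : ℝ) ^ 3 * z ^ k) + 6 * (∑' k : ℕ, (k : ℝ) ^ 2 * z ^ k)
      + 4 * (∑' k : ℕ, (k : ℝ) ^ 1 * z ^ k) + ∑' k : ℕ, (k : ℝ) ^ 0 * z ^ k) := by
    conv_lhs => rw [(hs 4).tsum_eq_zero_add]
    rw [← tsum_mul_left (a := 4) (f := fun k : ℕ => (k : ℝ) ^ 3 * z ^ k), ← tsum_mul_left (a := 6),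
      ← tsum_mul_left (a := 4) (f := fun k : ℕ => (k : ℝ) ^ 1 * z ^ k),
      ← (hs 4).tsum_add ((hs 3).mul_left 4),
      ← ((hs 4).add ((hs 3).mul_left 4)).tsum_add ((hs 2).mul_left 6),
      ← (((hs 4).add ((hs 3).mul_left 4)).add ((hs 2).mul_left 6)).tsum_add ((hs 1).mul_left 4),
      ← ((((hs 4).add ((hs 3).mul_left 4)).add ((hs 2).mul_left 6)).add ((hs 1).mul_left 4)).tsum_add (hs 0),
      ← tsum_mul_left]
    simp only [Nat.cast_zero]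
    rw [zero_pow (by norm_num), zero_mul, zero_add]
    apply tsum_congr
    intro k
    push_cast
    ring
  generalize (∑' k : ℕ, (k : ℝ) ^ 0 * z ^ k) = s0 at *
  generalize (∑' k : ℕ, (k : ℝ) ^ 1 * z ^ k) = s1 at *
  generalize (∑' k : ℕ, (k : ℝ) ^ 2 * z ^ k) = s2 at *
  generalize (∑' k : ℕ, (k : ℝ) ^ 3 * z ^ k) = s3 at *
  generalize (∑' k : ℕ, (k : ℝ) ^ 4 * z ^ k) = s4 at *
  have f1 : s1 = z / (1 - z) ^ 2 := by
    have : s1 * (1 - z) = z * s0 := by linear_combination e1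
    rw [e0] at this
    rw [eq_div_iff (pow_ne_zero _ hz)]
    have h2 : s1 * (1 - z) ^ 2 = (s1 * (1 - z)) * (1 - z) := by ring
    rw [h2, this]
    field_simp
  have f2 : s2 = z * (1 + z) / (1 - z) ^ 3 := by
    have : s2 * (1 - z) = z * (2 * s1 + s0) := by linear_combination e2
    rw [e0, f1] at this
    rw [eq_div_iff (pow_ne_zero _ hz)]
    have h2 : s2 * (1 - z) ^ 3 = (s2 * (1 - z)) * (1 - z) ^ 2 := by ring
    rw [h2, this]
    field_simp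
    ring
  have f3 : s3 = z * (1 + 4 * z + z ^ 2) / (1 - z) ^ 4 := by
    have : s3 * (1 - z) = z * (3 * s2 + 3 * s1 + s0) := by linear_combination e3
    rw [e0, f1, f2] at this
    rw [eq_div_iff (pow_ne_zero _ hz)]
    have h2 : s3 * (1 - z) ^ 4 = (s3 * (1 - z)) * (1 - z) ^ 3 := by ring
    rw [h2, this]
    field_simp
    ring
  have f4 : s4 = z * (1 + 11 * z + 11 * z ^ 2 + z ^ 3) / (1 - z) ^ 5 := by
    have : s4 * (1 - z) = z * (4 * s3 + 6 * s2 + 4 * s1 + s0) := by linear_combination e4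
    rw [e0, f1, f2, f3] at this
    rw [eq_div_iff (pow_ne_zero _ hz)]
    have h2 : s4 * (1 - z) ^ 5 = (s4 * (1 - z)) * (1 - z) ^ 4 := by ring
    rw [h2, this]
    field_simp
    ring
  exact ⟨e0, f1, f2, f3, f4⟩

theorem ps0 (n : ℕ) (z : ℝ) : PS 0 n z = ∑ j ∈ Finset.range (n + 1), z ^ j := by
  unfold PS
  simp

theorem mm_eq (n : ℕ) (z : ℝ) : mm n (geo n z) = PS 1 n z / PS 0 n z := by
  unfold mm geo
  rw [ps0, PS, Finset.sum_div]
  apply Finset.sum_congr rfl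
  intro k _
  rw [pow_one]
  ring

/-- `∑ geo² (k-m)^2` and similar, through power sums of `z²` -/
theorem geo_sq_sum (n : ℕ) (z : ℝ) : ∑ k ∈ Finset.range (n + 1), geo n z k * geo n z k = PS 0 n (z ^ 2) / PS 0 n z ^ 2 := by
  have h : PS 0 n (z ^ 2) = ∑ k ∈ Finset.range (n + 1), (z ^ k) ^ 2 := by
    rw [ps0]
    apply Finset.sum_congr rfl
    intro k _
    rw [← pow_mul, mul_comm 2 k, pow_mul]
  rw [h, Finset.sum_div]
  apply Finset.sum_congr rfl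
  intro k _
  have h3 : geo n z k = z ^ k / PS 0 n z := by rw [geo, ps0]
  rw [h3]
  ring

theorem vv_eq (n : ℕ) (z : ℝ) (hz : 0 < z) :
    vv n (geo n z) = PS 2 n z / PS 0 n z - (PS 1 n z / PS 0 n z) ^ 2 := by
  have hpos : 0 < PS 0 n z := by rw [ps0]; exact geo_den_pos n z hz
  have h1 : vv n (geo n z) = (PS 2 n z - 2 * mm n (geo n z) * PS 1 n z + mm n (geo n z) ^ 2 * PS 0 n z) / PS 0 n z := by
    unfold vv
    rw [eq_div_iff hpos.ne', Finset.sum_mul]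
    unfold PS
    rw [Finset.mul_sum, Finset.mul_sum, ← Finset.sum_sub_distrib, ← Finset.sum_add_distrib]
    apply Finset.sum_congr rfl
    intro k _
    have : geo n z k * (∑ k ∈ Finset.range (n + 1), (k : ℝ) ^ 0 * z ^ k) = z ^ k := by
      have h := ps0 n z
      unfold PS at h
      rw [h, geo]
      field_simp [(geo_den_pos n z hz).ne']
    calc geo n z k * ((k : ℝ) - mm n (geo n z)) ^ 2 * ∑ k ∈ Finset.range (n + 1), (k : ℝ) ^ 0 * z ^ k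
        = (geo n z k * ∑ k ∈ Finset.range (n + 1), (k : ℝ) ^ 0 * z ^ k) * ((k : ℝ) - mm n (geo n z)) ^ 2 := by ring
      _ = _ := by rw [this]; ring
  rw [h1, mm_eq]
  field_simp
  ring

noncomputable def Q2 (n : ℕ) (z m : ℝ) : ℝ := PS 2 n (z ^ 2) - 2 * m * PS 1 n (z ^ 2) + m ^ 2 * PS 0 n (z ^ 2)
noncomputable def Q4 (n : ℕ) (z m : ℝ) : ℝ :=
  PS 4 n (z ^ 2) - 4 * m * PS 3 n (z ^ 2) + 6 * m ^ 2 * PS 2 n (z ^ 2) - 4 * m ^ 3 * PS 1 n (z ^ 2) + m ^ 4 * PS 0 n (z ^ 2)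

theorem q2_eq (n : ℕ) (z m : ℝ) : Q2 n z m = ∑ k ∈ Finset.range (n + 1), (z ^ k) ^ 2 * ((k : ℝ) - m) ^ 2 := by
  unfold Q2 PS
  rw [Finset.mul_sum, Finset.mul_sum, ← Finset.sum_sub_distrib, ← Finset.sum_add_distrib]
  apply Finset.sum_congr rfl
  intro k _
  rw [← pow_mul z 2 k, mul_comm 2 k, pow_mul z k 2]
  ring

theorem q4_eq (n : ℕ) (z m : ℝ) : Q4 n z m = ∑ k ∈ Finset.range (n + 1), (z ^ k) ^ 2 * ((k : ℝ) - m) ^ 4 := by
  unfold Q4 PS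
  rw [Finset.mul_sum, Finset.mul_sum, Finset.mul_sum, Finset.mul_sum, ← Finset.sum_sub_distrib,
    ← Finset.sum_add_distrib, ← Finset.sum_sub_distrib, ← Finset.sum_add_distrib]
  apply Finset.sum_congr rfl
  intro k _
  rw [← pow_mul z 2 k, mul_comm 2 k, pow_mul z k 2]
  ring

theorem bet_sum (n : ℕ) (hn : 1 ≤ n) (z : ℝ) (hz : 0 < z) :
    ∑ k ∈ Finset.range (n + 1), bet n (geo n z) k * bet n (geo n z) k
      = Q2 n z (mm n (geo n z)) / (PS 0 n z ^ 2 * vv n (geo n z)) := by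
  have hv := vv_pos n (geo n z) (geo_pos n z hz) hn
  rw [q2_eq, Finset.sum_div]
  apply Finset.sum_congr rfl
  intro k _
  unfold bet
  have h2 : Real.sqrt (vv n (geo n z)) * Real.sqrt (vv n (geo n z)) = vv n (geo n z) := Real.mul_self_sqrt hv.le
  have h3 : geo n z k = z ^ k / PS 0 n z := by rw [geo, ps0]
  calc geo n z k * (((k : ℝ) - mm n (geo n z)) / Real.sqrt (vv n (geo n z)))
        * (geo n z k * (((k : ℝ) - mm n (geo n z)) / Real.sqrt (vv n (geo n z))))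
      = (geo n z k) ^ 2 * ((k : ℝ) - mm n (geo n z)) ^ 2 / (Real.sqrt (vv n (geo n z)) * Real.sqrt (vv n (geo n z))) := by
        ring
    _ = _ := by rw [h2, h3]; ring

theorem geo_del_sum (n : ℕ) (hn : 1 ≤ n) (z : ℝ) (hz : 0 < z) :
    ∑ k ∈ Finset.range (n + 1), geo n z k * del n (geo n z) k
      = Q2 n z (mm n (geo n z)) / (PS 0 n z ^ 2 * vv n (geo n z)) - PS 0 n (z ^ 2) / PS 0 n z ^ 2 := by
  have hv := vv_pos n (geo n z) (geo_pos n z hz) hn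
  rw [q2_eq, Finset.sum_div, ← geo_sq_sum, ← Finset.sum_sub_distrib]
  apply Finset.sum_congr rfl
  intro k _
  unfold del
  have h3 : geo n z k = z ^ k / PS 0 n z := by rw [geo, ps0]
  rw [h3]
  ring

theorem del_sum (n : ℕ) (hn : 1 ≤ n) (z : ℝ) (hz : 0 < z) :
    ∑ k ∈ Finset.range (n + 1), del n (geo n z) k * del n (geo n z) k
      = Q4 n z (mm n (geo n z)) / (PS 0 n z ^ 2 * vv n (geo n z) ^ 2)
        - 2 * (Q2 n z (mm n (geo n z)) / (PS 0 n z ^ 2 * vv n (geo n z))) + PS 0 n (z ^ 2) / PS 0 n z ^ 2 := by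
  have hv := vv_pos n (geo n z) (geo_pos n z hz) hn
  rw [q2_eq, q4_eq, Finset.sum_div, Finset.sum_div, ← geo_sq_sum, Finset.mul_sum, ← Finset.sum_sub_distrib,
    ← Finset.sum_add_distrib]
  apply Finset.sum_congr rfl
  intro k _
  unfold del
  have h3 : geo n z k = z ^ k / PS 0 n z := by rw [geo, ps0]
  rw [h3]
  have hp : PS 0 n z ≠ 0 := by rw [ps0]; exact (geo_den_pos n z hz).ne'
  field_simp
  ring

end Q298.KacU
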