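import Mathlib
import Pool.Agent.Q298.KacU.WA

set_option autoImplicit false
set_option maxHeartbeats 4000000
open MeasureTheory ProbabilityTheory Filter Topology Set
open scoped ENNReal NNReal

namespace Q298.KacU
open Kac764

noncomputable def qq (z : ℝ) : ℝ := 1 - 2 * z + 6 * z ^ 2 - 2 * z ^ 3 + z ^ 4

/-- limiting lower bound (times `π`) -/
noncomputable def gg (τ z : ℝ) : ℝ :=
  1 / (1 - z) + τ ^ 2 * ((1 - z) ^ 2 / (1 + z) ^ 3 / 2 - 2 / 5 * (qq z / (1 + z) ^ 5))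
    - τ ^ 3 * (2 / (1 + z) + 4 * z / (1 + z) ^ 3 + 2 * (qq z / (1 + z) ^ 5))

theorem lim_PS (j : ℕ) (z : ℝ) (h0 : 0 ≤ z) (h1 : z < 1) (c : ℝ) (hc : (∑' k : ℕ, (k : ℝ) ^ j * z ^ k) = c) :
    Tendsto (fun n => PS j n z) atTop (𝓝 c) := hc ▸ ps_tendsto j z h0 h1

theorem lim_mm (z : ℝ) (h0 : 0 < z) (h1 : z < 1) :
    Tendsto (fun n => mm n (geo n z)) atTop (𝓝 (z / (1 - z))) := by
  obtain ⟨e0, e1, -, -, -⟩ := ps_lim z h0.le h1
  have hz : (1 - z) ≠ 0 := by linarith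
  simp only [mm_eq]
  have := (lim_PS 1 z h0.le h1 _ e1).div (lim_PS 0 z h0.le h1 _ e0) (by positivity)
  have e : z / (1 - z) ^ 2 / (1 / (1 - z)) = z / (1 - z) := by field_simp
  rw [e] at this
  exact this

theorem lim_vv (z : ℝ) (h0 : 0 < z) (h1 : z < 1) :
    Tendsto (fun n => vv n (geo n z)) atTop (𝓝 (z / (1 - z) ^ 2)) := by
  obtain ⟨e0, e1, e2, -, -⟩ := ps_lim z h0.le h1
  have hz : (1 - z) ≠ 0 := by linarith
  simp only [fun n => vv_eq n z h0]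
  have h2 := (lim_PS 2 z h0.le h1 _ e2).div (lim_PS 0 z h0.le h1 _ e0) (by positivity)
  have h3 := ((lim_PS 1 z h0.le h1 _ e1).div (lim_PS 0 z h0.le h1 _ e0) (by positivity)).pow 2
  have h4 := h2.sub h3
  have e : z * (1 + z) / (1 - z) ^ 3 / (1 / (1 - z)) - (z / (1 - z) ^ 2 / (1 / (1 - z))) ^ 2 = z / (1 - z) ^ 2 := by
    field_simp
    ring
  rw [e] at h4
  exact h4

theorem lim_Q2 (z : ℝ) (h0 : 0 < z) (h1 : z < 1) :
    Tendsto (fun n => Q2 n z (mm n (geo n z))) atTop (𝓝 (2 * z ^ 2 / ((1 - z) ^ 3 * (1 + z) ^ 3))) := by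
  have hz2 : z ^ 2 < 1 := by nlinarith
  obtain ⟨e0, e1, e2, -, -⟩ := ps_lim (z ^ 2) (by positivity) hz2
  have hm := lim_mm z h0 h1
  have hz : (1 - z) ≠ 0 := by linarith
  have hz' : (1 + z) ≠ 0 := by linarith
  have hz3 : (1 - z ^ 2) ≠ 0 := by linarith
  unfold Q2
  have t0 := lim_PS 0 (z ^ 2) (by positivity) hz2 _ e0
  have t1 := lim_PS 1 (z ^ 2) (by positivity) hz2 _ e1
  have t2 := lim_PS 2 (z ^ 2) (by positivity) hz2 _ e2
  have h := (t2.sub ((hm.const_mul 2).mul t1)).add ((hm.pow 2).mul t0)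
  have e : z ^ 2 * (1 + z ^ 2) / (1 - z ^ 2) ^ 3 - 2 * (z / (1 - z)) * (z ^ 2 / (1 - z ^ 2) ^ 2)
      + (z / (1 - z)) ^ 2 * (1 / (1 - z ^ 2)) = 2 * z ^ 2 / ((1 - z) ^ 3 * (1 + z) ^ 3) := by
    have : 1 - z ^ 2 = (1 - z) * (1 + z) := by ring
    rw [this]
    field_simp
    ring
  rw [e] at h
  exact h

theorem lim_Q4 (z : ℝ) (h0 : 0 < z) (h1 : z < 1) :
    Tendsto (fun n => Q4 n z (mm n (geo n z))) atTop
      (𝓝 (z ^ 2 * (1 - 4 * z + 14 * z ^ 2 - 4 * z ^ 3 + z ^ 4) / ((1 - z) ^ 5 * (1 + z) ^ 5))) := by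
  have hz2 : z ^ 2 < 1 := by nlinarith
  obtain ⟨e0, e1, e2, e3, e4⟩ := ps_lim (z ^ 2) (by positivity) hz2
  have hm := lim_mm z h0 h1
  have hz : (1 - z) ≠ 0 := by linarith
  have hz' : (1 + z) ≠ 0 := by linarith
  unfold Q4
  have t0 := lim_PS 0 (z ^ 2) (by positivity) hz2 _ e0
  have t1 := lim_PS 1 (z ^ 2) (by positivity) hz2 _ e1
  have t2 := lim_PS 2 (z ^ 2) (by positivity) hz2 _ e2
  have t3 := lim_PS 3 (z ^ 2) (by positivity) hz2 _ e3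
  have t4 := lim_PS 4 (z ^ 2) (by positivity) hz2 _ e4
  have h := ((((t4.sub ((hm.const_mul 4).mul t3)).add (((hm.pow 2).const_mul 6).mul t2)).sub
    (((hm.pow 3).const_mul 4).mul t1)).add ((hm.pow 4).mul t0))
  convert h using 2
  have : 1 - z ^ 2 = (1 - z) * (1 + z) := by ring
  rw [this]
  field_simp
  ring

theorem lim_FN (τ x : ℝ) (hx0 : x ≠ 0) (hx1 : |x| < 1) :
    Tendsto (fun n => FN n τ x) atTop (𝓝 (1 / Real.pi * gg τ (x ^ 2))) := by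
  set z := x ^ 2 with hzdef
  have h0 : 0 < z := by positivity
  have h1 : z < 1 := by
    rw [hzdef, sq_lt_one_iff_abs_lt_one]
    exact hx1
  have hz : (1 - z) ≠ 0 := by linarith
  have hz' : (1 + z) ≠ 0 := by linarith
  have hzp : 0 < 1 - z := by linarith
  have hz2 : z ^ 2 < 1 := by nlinarith
  have l0 := lim_PS 0 z h0.le h1 _ (ps_lim z h0.le h1).1
  have t0 := lim_PS 0 (z ^ 2) (by positivity) hz2 _ (ps_lim (z ^ 2) (by positivity) hz2).1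
  have lv := lim_vv z h0 h1
  have l2 := lim_Q2 z h0 h1
  have l4 := lim_Q4 z h0 h1
  -- the three quadratic sums
  have k1 : Tendsto (fun n => PS 0 n (z ^ 2) / PS 0 n z ^ 2) atTop (𝓝 ((1 - z) / (1 + z))) := by
    have h := t0.div (l0.pow 2) (by positivity)
    have e : 1 / (1 - z ^ 2) / (1 / (1 - z)) ^ 2 = (1 - z) / (1 + z) := by
      have : 1 - z ^ 2 = (1 - z) * (1 + z) := by ring
      rw [this]
      field_simp
    rw [e] at h
    exact h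
  have k2 : Tendsto (fun n => Q2 n z (mm n (geo n z)) / (PS 0 n z ^ 2 * vv n (geo n z))) atTop
      (𝓝 (2 * z * (1 - z) / (1 + z) ^ 3)) := by
    have h := l2.div ((l0.pow 2).mul lv) (by positivity)
    have e : 2 * z ^ 2 / ((1 - z) ^ 3 * (1 + z) ^ 3) / ((1 / (1 - z)) ^ 2 * (z / (1 - z) ^ 2))
        = 2 * z * (1 - z) / (1 + z) ^ 3 := by
      field_simp
    rw [e] at h
    exact h
  have k3 : Tendsto (fun n => Q4 n z (mm n (geo n z)) / (PS 0 n z ^ 2 * vv n (geo n z) ^ 2)) atTop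
      (𝓝 ((1 - 4 * z + 14 * z ^ 2 - 4 * z ^ 3 + z ^ 4) * (1 - z) / (1 + z) ^ 5)) := by
    have h := l4.div ((l0.pow 2).mul (lv.pow 2)) (by positivity)
    have e : z ^ 2 * (1 - 4 * z + 14 * z ^ 2 - 4 * z ^ 3 + z ^ 4) / ((1 - z) ^ 5 * (1 + z) ^ 5)
        / ((1 / (1 - z)) ^ 2 * (z / (1 - z) ^ 2) ^ 2)
        = (1 - 4 * z + 14 * z ^ 2 - 4 * z ^ 3 + z ^ 4) * (1 - z) / (1 + z) ^ 5 := by
      field_simp
    rw [e] at h
    exact h
  have k4 : Tendsto (fun n => Real.sqrt (vv n (geo n z)) / |x|) atTop (𝓝 (1 / (1 - z))) := by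
    have h := (lv.sqrt).div_const |x|
    convert h using 2
    have : z / (1 - z) ^ 2 = (|x| / (1 - z)) ^ 2 := by rw [div_pow, sq_abs]
    rw [this, Real.sqrt_sq (by positivity)]
    have : |x| ≠ 0 := abs_ne_zero.2 hx0
    field_simp
  have hA := (k2.sub k1)
  have hD := ((k3.sub (k2.const_mul 2)).add k1)
  have hfin := (k4.const_mul (1 / Real.pi)).mul
    (((tendsto_const_nhds (x := (1 : ℝ)) (f := atTop (α := ℕ))).sub
      ((((hA.div_const 2).add (k2.div_const 2)).add (hD.div_const 5)).const_mul (τ ^ 2))).sub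
      ((((k1.const_mul 2).add (k2.const_mul 2)).add hD).const_mul (τ ^ 3)))
  have hval : 1 / Real.pi * gg τ z = 1 / Real.pi * (1 / (1 - z)) *
      (1 - τ ^ 2 * ((2 * z * (1 - z) / (1 + z) ^ 3 - (1 - z) / (1 + z)) / 2 + 2 * z * (1 - z) / (1 + z) ^ 3 / 2
        + ((1 - 4 * z + 14 * z ^ 2 - 4 * z ^ 3 + z ^ 4) * (1 - z) / (1 + z) ^ 5
          - 2 * (2 * z * (1 - z) / (1 + z) ^ 3) + (1 - z) / (1 + z)) / 5)
        - τ ^ 3 * (2 * ((1 - z) / (1 + z)) + 2 * (2 * z * (1 - z) / (1 + z) ^ 3)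
          + ((1 - 4 * z + 14 * z ^ 2 - 4 * z ^ 3 + z ^ 4) * (1 - z) / (1 + z) ^ 5
          - 2 * (2 * z * (1 - z) / (1 + z) ^ 3) + (1 - z) / (1 + z)))) := by
    unfold gg qq
    field_simp
    ring
  rw [hval]
  refine hfin.congr' ?_
  filter_upwards [eventually_ge_atTop 1] with n hn
  unfold FN
  rw [← hzdef, geo_sq_sum, bet_sum n hn z h0, geo_del_sum n hn z h0, del_sum n hn z h0]

end Q298.KacU
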