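import Mathlib
import Pool.Agent.Helper764.KacFin
import Pool.Agent.Q298.KacU.WB

set_option autoImplicit false
set_option maxHeartbeats 4000000
open MeasureTheory ProbabilityTheory Filter Topology Set
open scoped ENNReal NNReal

namespace Q298.KacU
open Kac764

/-! ### laws -/

theorem gauss_sq (v : ℝ≥0) : ∫ x, x ^ 2 ∂(gaussianReal 0 v) = v := by
  have h := variance_of_integral_eq_zero (μ := gaussianReal 0 v) (X := fun x : ℝ => x)
    (by fun_prop) integral_id_gaussianReal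
  rw [variance_fun_id_gaussianReal] at h
  exact h.symm

theorem gauss_int_sq (v : ℝ≥0) : Integrable (fun x : ℝ => x ^ 2) (gaussianReal 0 v) :=
  (memLp_id_gaussianReal (μ := 0) (v := v) 2).integrable_sq

theorem gauss_int_id (v : ℝ≥0) : Integrable (fun x : ℝ => x) (gaussianReal 0 v) :=
  (memLp_id_gaussianReal (μ := 0) (v := v) 1).integrable (by simp)

theorem std_gauss : Std (gaussianReal 0 1) :=
  ⟨inferInstance, gauss_int_sq 1, integral_id_gaussianReal, by rw [gauss_sq]; simp⟩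

theorem std_mix (τ : ℝ) (h0 : 0 ≤ τ) (h1 : τ ≤ 1) : Std (mixLaw τ) := by
  refine ⟨inferInstance, ?_, ?_, ?_⟩
  · unfold mixLaw
    exact ((gauss_int_sq _).smul_measure (by simp)).add_measure ((gauss_int_sq _).smul_measure (by simp))
  · unfold mixLaw
    rw [integral_add_measure ((gauss_int_id _).smul_measure (by simp)) ((gauss_int_id _).smul_measure (by simp)),
      integral_smul_measure, integral_smul_measure, integral_id_gaussianReal, integral_id_gaussianReal]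
    simp
  · unfold mixLaw
    rw [integral_add_measure ((gauss_int_sq _).smul_measure (by simp)) ((gauss_int_sq _).smul_measure (by simp)),
      integral_smul_measure, integral_smul_measure, gauss_sq, gauss_sq,
      Real.coe_toNNReal _ (by linarith), Real.coe_toNNReal _ (by linarith)]
    simp
    ring

theorem mix_singleton (τ : ℝ) (h0 : 0 ≤ τ) (h1 : τ < 1) (y : ℝ) : mixLaw τ {y} = 0 := by
  have key : ∀ v : ℝ≥0, v ≠ 0 → gaussianReal 0 v {y} = 0 := by
    intro v hv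
    have := gaussianReal_absolutelyContinuous 0 hv
    exact this (by simp)
  unfold mixLaw
  simp only [Measure.coe_add, Measure.coe_smul, Pi.add_apply, Pi.smul_apply, smul_eq_mul]
  rw [key _ (by rw [ne_eq, Real.toNNReal_eq_zero]; linarith), key _ (by rw [ne_eq, Real.toNNReal_eq_zero]; linarith)]
  simp

theorem gauss_singleton (y : ℝ) : gaussianReal 0 1 {y} = 0 := by
  have := gaussianReal_absolutelyContinuous 0 (v := 1) one_ne_zero
  exact this (by simp)

/-! ### from lintegral to integral of `nz` -/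

theorem nz_int_eq (μ : Measure ℝ) (hμ : Std μ) (n : ℕ) (a b : ℝ) :
    ENNReal.ofReal (∫ ω, (nz (kac n ω) (Ioo a b) : ℝ) ∂(PP μ)) = ∫⁻ ω, (nz (kac n ω) (Ioo a b) : ℝ≥0∞) ∂(PP μ) := by
  have hm : Measurable (fun ω : ℕ → ℝ => nz (kac n ω) (Ioo a b)) := J6.measurable_nz n a b
  have hI := M1.aux12193_int_of_bdd μ hμ (fun ω => nz (kac n ω) (Ioo a b)) hm n
    (fun ω => M1.aux12193_nz_le n ω _)
  rw [ofReal_integral_eq_lintegral_ofReal hI (Eventually.of_forall fun ω => by positivity)]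
  apply lintegral_congr
  intro ω
  exact ENNReal.ofReal_natCast _

/-! ### Gaussian case -/

theorem gauss_nz (n : ℕ) (hn : 1 ≤ n) (a b : ℝ) (hab : a < b) :
    ∫ ω, (nz (kac n ω) (Ioo a b) : ℝ) ∂GG = ∫ x in a..b, rho n x := by
  have h1 := nz_int_eq (gaussianReal 0 1) std_gauss n a b
  rw [show (PP (gaussianReal 0 1)) = GG from rfl, kacrice_gauss n hn a b hab] at h1
  have hc : IntegrableOn (rho n) (Ioo a b) := by
    have := (H2.rho_continuous n).integrableOn_Icc (a := a) (b := b) (μ := volume)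
    exact this.mono_set Ioo_subset_Icc_self
  rw [← ofReal_integral_eq_lintegral_ofReal hc (Eventually.of_forall fun x => H2.rho_nonneg n x)] at h1
  have h2 : 0 ≤ ∫ ω, (nz (kac n ω) (Ioo a b) : ℝ) ∂GG := integral_nonneg fun ω => by positivity
  have h3 : 0 ≤ ∫ x in Ioo a b, rho n x := integral_nonneg fun x => H2.rho_nonneg n x
  rw [intervalIntegral.integral_of_le hab.le, integral_Ioc_eq_integral_Ioo]
  exact (ENNReal.ofReal_eq_ofReal_iff h2 h3).1 h1

theorem gauss_Ninf (a b : ℝ) (hab : a < b) (ha : -1 < a) (hb : b < 1) (h0 : (0 : ℝ) ∉ Ioo a b) :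
    ∫ ω, (Ninf ω (Ioo a b) : ℝ) ∂GG = ∫ x in a..b, 1 / (Real.pi * (1 - x ^ 2)) := by
  have h1 := (A1.tendsto_nz (gaussianReal 0 1) std_gauss a b hab ha hb h0).2
  have h2 := H2.tendsto_int_rho a b ha hab.le hb
  refine tendsto_nhds_unique h1 (h2.congr' ?_)
  filter_upwards [eventually_ge_atTop 1] with n hn
  exact (gauss_nz n hn a b hab).symm

theorem int_inv_neg (r : ℝ) : ∫ x in (-r)..0, 1 / (Real.pi * (1 - x ^ 2)) = ∫ x in (0 : ℝ)..r, 1 / (Real.pi * (1 - x ^ 2)) := by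
  have := intervalIntegral.integral_comp_neg (a := 0) (b := r) (fun x : ℝ => 1 / (Real.pi * (1 - x ^ 2)))
  simp only [neg_sq, neg_zero] at this
  exact this.symm

theorem gauss_center (r : ℝ) (hr : 0 < r) (hr1 : r < 1) :
    2 * ∫ ω, (Ninf ω {x : ℝ | 0 < |x| ∧ |x| < r} : ℝ) ∂GG - (2 / Real.pi) * Real.log ((1 + r) / (1 - r)) = 0 := by
  have h1 := M1.Ninf_center (gaussianReal 0 1) std_gauss r hr hr1
  have h2 := gauss_Ninf 0 r hr (by norm_num) hr1 (by simp)
  have h3 := gauss_Ninf (-r) 0 (by linarith) (by linarith) (by norm_num) (by simp)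
  rw [int_inv_neg] at h3
  have h4 := H2.int_rhoInf r hr.le hr1
  have h1' : ∫ ω, (Ninf ω {x : ℝ | 0 < |x| ∧ |x| < r} : ℝ) ∂GG
      = ∫ ω, (Ninf ω (Ioo 0 r) : ℝ) ∂GG + ∫ ω, (Ninf ω (Ioo (-r) 0) : ℝ) ∂GG := h1
  rw [h1', h2, h3, h4]
  have := Real.pi_ne_zero
  field_simp
  ring

theorem gauss_main : Tendsto (fun n : ℕ => ∫ ω, (nz (kac n ω) univ : ℝ) ∂GG - (2 / Real.pi) * Real.log n)
    atTop (𝓝 gaussConst) := by
  obtain ⟨L, hL1, hL2⟩ := Fin.main (gaussianReal 0 1) std_gauss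
  have hL : L = 0 := by
    refine tendsto_nhds_unique hL1 ?_
    refine tendsto_const_nhds.congr' ?_
    have : Ioo (0 : ℝ) 1 ∈ 𝓝[<] (1 : ℝ) := Ioo_mem_nhdsLT (by norm_num)
    filter_upwards [this] with r hr
    exact (gauss_center r hr.1 hr.2).symm
  have h0 : (gaussianReal 0 1).real {0} = 0 := by
    rw [Measure.real, gauss_singleton]
    simp
  rw [hL, h0, zero_add, add_zero] at hL2
  exact hL2

/-! ### mixture: Fatou -/

theorem dens_meas (n : ℕ) (τ : ℝ) : Measurable (fun p : (ℕ → ℝ) × ℝ => dens n (fun k => 1 + τ * p.1 k) p.2) := by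
  unfold dens WA WB WC
  have m1 : Measurable (fun p : (ℕ → ℝ) × ℝ => ∑ k ∈ Finset.range (n + 1), (1 + τ * p.1 k) * (p.2 ^ k) ^ 2) :=
    Finset.measurable_sum _ fun k _ => by fun_prop
  have m2 : Measurable (fun p : (ℕ → ℝ) × ℝ => ∑ k ∈ Finset.range (n + 1), (1 + τ * p.1 k) * (p.2 ^ k * ((k : ℝ) * p.2 ^ (k - 1)))) :=
    Finset.measurable_sum _ fun k _ => by fun_prop
  have m3 : Measurable (fun p : (ℕ → ℝ) × ℝ => ∑ k ∈ Finset.range (n + 1), (1 + τ * p.1 k) * ((k : ℝ) * p.2 ^ (k - 1)) ^ 2) :=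
    Finset.measurable_sum _ fun k _ => by fun_prop
  exact measurable_const.mul (((m1.mul m3).sub (m2.pow_const 2)).sqrt.div m1)

theorem inner_meas (n : ℕ) (τ : ℝ) :
    Measurable (fun x : ℝ => ∫⁻ u, ENNReal.ofReal (dens n (fun k => 1 + τ * u k) x) ∂(PP sgnLaw)) := by
  have h : Measurable (fun p : (ℕ → ℝ) × ℝ => ENNReal.ofReal (dens n (fun k => 1 + τ * p.1 k) p.2)) :=
    ENNReal.measurable_ofReal.comp (dens_meas n τ)
  exact h.lintegral_prod_left'

theorem mix_lower (τ : ℝ) (h0 : 0 < τ) (h1 : τ ≤ 1 / 200) (a b : ℝ) (hab : a < b) (ha : -1 < a) (hb : b < 1)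
    (h00 : (0 : ℝ) ∉ Ioo a b) (hint : IntegrableOn (fun x => 1 / Real.pi * gg τ (x ^ 2)) (Ioo a b)) :
    ∫ x in Ioo a b, 1 / Real.pi * gg τ (x ^ 2) ≤ ∫ ω, (Ninf ω (Ioo a b) : ℝ) ∂(PP (mixLaw τ)) := by
  have hμ := std_mix τ h0.le (by linarith)
  have hN0 : 0 ≤ ∫ ω, (Ninf ω (Ioo a b) : ℝ) ∂(PP (mixLaw τ)) := integral_nonneg fun ω => by positivity
  have hlim := (A1.tendsto_nz (mixLaw τ) hμ a b hab ha hb h00).2
  have hlim2 : Tendsto (fun n : ℕ => ∫⁻ ω, (nz (kac n ω) (Ioo a b) : ℝ≥0∞) ∂(PP (mixLaw τ))) atTop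
      (𝓝 (ENNReal.ofReal (∫ ω, (Ninf ω (Ioo a b) : ℝ) ∂(PP (mixLaw τ))))) := by
    have := (ENNReal.continuous_ofReal.tendsto _).comp hlim
    refine this.congr ?_
    intro n
    exact nz_int_eq (mixLaw τ) hμ n a b
  have hlim3 : Tendsto (fun n : ℕ => ∫⁻ x in Ioo a b, ∫⁻ u, ENNReal.ofReal (dens n (fun k => 1 + τ * u k) x) ∂(PP sgnLaw)) atTop
      (𝓝 (ENNReal.ofReal (∫ ω, (Ninf ω (Ioo a b) : ℝ) ∂(PP (mixLaw τ))))) := by
    refine hlim2.congr' ?_
    filter_upwards [eventually_ge_atTop 1] with n hn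
    exact kacrice_mix n hn τ h0.le (by linarith) a b hab
  have hF := lintegral_liminf_le (μ := volume.restrict (Ioo a b)) (u := atTop)
    (f := fun (n : ℕ) (x : ℝ) => ∫⁻ u, ENNReal.ofReal (dens n (fun k => 1 + τ * u k) x) ∂(PP sgnLaw))
    (fun n => inner_meas n τ)
  rw [hlim3.liminf_eq] at hF
  have h2 : ∫⁻ x in Ioo a b, ENNReal.ofReal (1 / Real.pi * gg τ (x ^ 2))
      ≤ ENNReal.ofReal (∫ ω, (Ninf ω (Ioo a b) : ℝ) ∂(PP (mixLaw τ))) := by
    refine le_trans ?_ hF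
    apply lintegral_mono_ae
    filter_upwards [ae_restrict_mem measurableSet_Ioo] with x hx
    have hx0 : x ≠ 0 := fun h => h00 (h ▸ hx)
    have hx1 : |x| < 1 := abs_lt.2 ⟨by linarith [hx.1], by linarith [hx.2]⟩
    have hl := (ENNReal.continuous_ofReal.tendsto _).comp (lim_FN τ x hx0 hx1)
    rw [← hl.liminf_eq]
    refine liminf_le_liminf ?_
    filter_upwards [eventually_ge_atTop 1] with n hn
    exact lint_dens_ge n hn τ h0 h1 x hx0
  have h3 := (ofReal_integral_le (volume.restrict (Ioo a b)) _ hint).trans h2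
  exact (ENNReal.ofReal_le_ofReal_iff hN0).1 h3

end Q298.KacU
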