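import Mathlib
import Pool.Agent.Q298.KacU.WC

set_option autoImplicit false
set_option maxHeartbeats 4000000
open MeasureTheory ProbabilityTheory Filter Topology Set
open scoped ENNReal NNReal

namespace Q298.KacU
open Kac764

/-- second-order gain -/
noncomputable def kk (z : ℝ) : ℝ := (1 - z) ^ 2 / (1 + z) ^ 3 / 2 - 2 / 5 * (qq z / (1 + z) ^ 5)

theorem gg_lower (τ z : ℝ) (hτ : 0 < τ) (h0 : 0 ≤ z) :
    1 / (1 - z) + τ ^ 2 * kk z - 4 * τ ^ 3 ≤ gg τ z := by
  unfold gg kk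
  have hw : 0 < 1 + z := by linarith
  have h : 2 / (1 + z) + 4 * z / (1 + z) ^ 3 + 2 * (qq z / (1 + z) ^ 5) ≤ 4 := by
    have e : 2 / (1 + z) + 4 * z / (1 + z) ^ 3 + 2 * (qq z / (1 + z) ^ 5)
        = (2 * (1 + z) ^ 4 + 4 * z * (1 + z) ^ 2 + 2 * qq z) / (1 + z) ^ 5 := by
      field_simp
    rw [e, div_le_iff₀ (by positivity)]
    unfold qq
    have : 0 ≤ 12 * z + 8 * z ^ 2 + 32 * z ^ 3 + 16 * z ^ 4 + 4 * z ^ 5 := by positivity
    nlinarith
  have h3 : 0 < τ ^ 3 := by positivity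
  have := mul_le_mul_of_nonneg_left h h3.le
  linarith

/-- antiderivative of `kk (x²)` -/
noncomputable def FF (x : ℝ) : ℝ :=
  3 / 80 * Real.arctan x + x / (2 * (1 + x ^ 2) ^ 2) - x / (4 * (1 + x ^ 2))
    - 2 / 5 * (-(15 / 32) * (x / (1 + x ^ 2)) + 27 / 16 * (x / (1 + x ^ 2) ^ 2)
      - 9 / 4 * (x / (1 + x ^ 2) ^ 3) + 3 / 2 * (x / (1 + x ^ 2) ^ 4))

theorem FF_deriv (x : ℝ) : HasDerivAt FF (kk (x ^ 2)) x := by
  have hw : (1 + x ^ 2) ≠ 0 := by positivity
  have hA := Real.hasDerivAt_arctan x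
  have hx := hasDerivAt_id x
  have hw' : HasDerivAt (fun y : ℝ => 1 + y ^ 2) (2 * x) x := by
    have := (hasDerivAt_pow 2 x).const_add 1
    simpa using this
  have d1 := (hA.const_mul (3 / 80))
  have d2 := hx.div ((hw'.pow 2).const_mul 2) (mul_ne_zero two_ne_zero (pow_ne_zero 2 hw))
  have d3 := hx.div (hw'.const_mul 4) (by positivity)
  have d4 := (hx.div hw' hw).const_mul (-(15 / 32))
  have d5 := (hx.div (hw'.pow 2) (pow_ne_zero 2 hw)).const_mul (27 / 16)
  have d6 := (hx.div (hw'.pow 3) (pow_ne_zero 3 hw)).const_mul (9 / 4)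
  have d7 := (hx.div (hw'.pow 4) (pow_ne_zero 4 hw)).const_mul (3 / 2)
  have d := ((d1.add d2).sub d3).sub ((((d4.add d5).sub d6).add d7).const_mul (2 / 5))
  have e : FF = _ := rfl
  refine (d.congr_deriv ?_).congr_of_eventuallyEq ?_
  · unfold kk qq
    simp only [id_eq, Nat.cast_ofNat, Nat.add_one_sub_one, Pi.pow_apply]
    field_simp
    ring
  · filter_upwards with y
    simp [FF]

theorem FF_zero : FF 0 = 0 := by simp [FF]

theorem FF_one : FF 1 = 3 * Real.pi / 320 := by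
  unfold FF
  rw [Real.arctan_one]
  ring

theorem kk_cont : Continuous (fun x : ℝ => kk (x ^ 2)) := by
  unfold kk qq
  apply Continuous.sub
  · apply Continuous.div_const
    apply Continuous.div (by fun_prop) (by fun_prop)
    intro x
    positivity
  · apply Continuous.mul continuous_const
    apply Continuous.div (by fun_prop) (by fun_prop)
    intro x
    positivity

theorem FF_int (r : ℝ) : ∫ x in (0 : ℝ)..r, kk (x ^ 2) = FF r := by
  rw [intervalIntegral.integral_eq_sub_of_hasDerivAt (fun x _ => FF_deriv x)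
    (kk_cont.intervalIntegrable _ _), FF_zero, sub_zero]

theorem gg_cont (τ : ℝ) : ContinuousOn (fun x : ℝ => gg τ (x ^ 2)) (Ioo (-1) 1) := by
  unfold gg qq
  have h1 : ∀ x ∈ Ioo (-1 : ℝ) 1, 1 - x ^ 2 ≠ 0 := by
    intro x hx
    have : x ^ 2 < 1 := by
      rw [sq_lt_one_iff_abs_lt_one, abs_lt]
      exact hx
    linarith
  have h2 : ∀ x : ℝ, 1 + x ^ 2 ≠ 0 := fun x => by positivity
  fun_prop (disch := first | assumption | (intro x _; positivity) | positivity)

end Q298.KacU
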