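import Mathlib
import Pool.Agent.Q298.KacU.WD

set_option autoImplicit false
set_option maxHeartbeats 4000000
open MeasureTheory ProbabilityTheory Filter Topology Set
open scoped ENNReal NNReal

namespace Q298.KacU
open Kac764

theorem gg_int (τ a b : ℝ) (h : a ≤ b) (ha : -1 < a) (hb : b < 1) :
    IntervalIntegrable (fun x => 1 / Real.pi * gg τ (x ^ 2)) volume a b := by
  apply ContinuousOn.intervalIntegrable
  apply ContinuousOn.mono (s := Ioo (-1) 1)
  · exact continuousOn_const.mul (gg_cont τ)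
  · rw [uIcc_of_le h]
    intro x hx
    exact ⟨by linarith [hx.1], by linarith [hx.2]⟩

theorem inv_int (a b : ℝ) (h : a ≤ b) (ha : -1 < a) (hb : b < 1) :
    IntervalIntegrable (fun x => 1 / (Real.pi * (1 - x ^ 2))) volume a b := by
  apply ContinuousOn.intervalIntegrable
  have h1 : ∀ x ∈ uIcc a b, Real.pi * (1 - x ^ 2) ≠ 0 := by
    intro x hx
    rw [uIcc_of_le h] at hx
    have : x ^ 2 < 1 := by
      rw [sq_lt_one_iff_abs_lt_one, abs_lt]
      exact ⟨by linarith [hx.1], by linarith [hx.2]⟩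
    have : 0 < 1 - x ^ 2 := by linarith
    have := Real.pi_pos
    positivity
  fun_prop (disch := assumption)

theorem gg_int_lower (τ r : ℝ) (hτ : 0 < τ) (hr : 0 < r) (hr1 : r < 1) :
    1 / (2 * Real.pi) * Real.log ((1 + r) / (1 - r)) + 1 / Real.pi * (τ ^ 2 * FF r - 4 * τ ^ 3 * r)
      ≤ ∫ x in (0 : ℝ)..r, 1 / Real.pi * gg τ (x ^ 2) := by
  have hpi := Real.pi_pos
  have h1 := gg_int τ 0 r hr.le (by norm_num) hr1
  have h2 := inv_int 0 r hr.le (by norm_num) hr1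
  have h3 : IntervalIntegrable (fun x : ℝ => 1 / Real.pi * (τ ^ 2 * kk (x ^ 2) - 4 * τ ^ 3)) volume 0 r := by
    apply Continuous.intervalIntegrable
    exact continuous_const.mul ((continuous_const.mul kk_cont).sub continuous_const)
  have h4 : ∫ x in (0 : ℝ)..r, (1 / (Real.pi * (1 - x ^ 2)) + 1 / Real.pi * (τ ^ 2 * kk (x ^ 2) - 4 * τ ^ 3))
      = 1 / (2 * Real.pi) * Real.log ((1 + r) / (1 - r)) + 1 / Real.pi * (τ ^ 2 * FF r - 4 * τ ^ 3 * r) := by
    rw [intervalIntegral.integral_add h2 h3, H2.int_rhoInf r hr.le hr1, intervalIntegral.integral_const_mul,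
      intervalIntegral.integral_sub, intervalIntegral.integral_const_mul, FF_int, intervalIntegral.integral_const]
    · simp only [sub_zero, smul_eq_mul]
      ring
    · exact (continuous_const.mul kk_cont).intervalIntegrable _ _
    · exact intervalIntegrable_const
  rw [← h4]
  apply intervalIntegral.integral_mono_on hr.le (h2.add h3) h1
  intro x hx
  have hx2 : x ^ 2 < 1 := by
    have := hx.1
    have := hx.2
    nlinarith
  have := gg_lower τ (x ^ 2) hτ (sq_nonneg x)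
  have e : 1 / (Real.pi * (1 - x ^ 2)) + 1 / Real.pi * (τ ^ 2 * kk (x ^ 2) - 4 * τ ^ 3)
      = 1 / Real.pi * (1 / (1 - x ^ 2) + τ ^ 2 * kk (x ^ 2) - 4 * τ ^ 3) := by
    have : 1 - x ^ 2 ≠ 0 := by linarith
    field_simp
    ring
  rw [e]
  apply mul_le_mul_of_nonneg_left this
  positivity

theorem mix_pos (τ r : ℝ) (h0 : 0 < τ) (h1 : τ ≤ 1 / 200) (hr : 0 < r) (hr1 : r < 1) :
    1 / (2 * Real.pi) * Real.log ((1 + r) / (1 - r)) + 1 / Real.pi * (τ ^ 2 * FF r - 4 * τ ^ 3 * r)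
      ≤ ∫ ω, (Ninf ω (Ioo 0 r) : ℝ) ∂(PP (mixLaw τ)) := by
  refine (gg_int_lower τ r h0 hr hr1).trans ?_
  rw [intervalIntegral.integral_of_le hr.le, integral_Ioc_eq_integral_Ioo]
  refine mix_lower τ h0 h1 0 r hr (by norm_num) hr1 (by simp) ?_
  have := gg_int τ 0 r hr.le (by norm_num) hr1
  rw [intervalIntegrable_iff_integrableOn_Ioc_of_le hr.le] at this
  exact this.mono_set Ioo_subset_Ioc_self

theorem mix_neg (τ r : ℝ) (h0 : 0 < τ) (h1 : τ ≤ 1 / 200) (hr : 0 < r) (hr1 : r < 1) :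
    1 / (2 * Real.pi) * Real.log ((1 + r) / (1 - r)) + 1 / Real.pi * (τ ^ 2 * FF r - 4 * τ ^ 3 * r)
      ≤ ∫ ω, (Ninf ω (Ioo (-r) 0) : ℝ) ∂(PP (mixLaw τ)) := by
  refine (gg_int_lower τ r h0 hr hr1).trans ?_
  have hsym := intervalIntegral.integral_comp_neg (a := 0) (b := r) (fun x : ℝ => 1 / Real.pi * gg τ (x ^ 2))
  simp only [neg_sq, neg_zero] at hsym
  rw [hsym, intervalIntegral.integral_of_le (by linarith), integral_Ioc_eq_integral_Ioo]
  refine mix_lower τ h0 h1 (-r) 0 (by linarith) (by linarith) (by norm_num) (by simp) ?_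
  have := gg_int τ (-r) 0 (by linarith) (by linarith) (by norm_num)
  rw [intervalIntegrable_iff_integrableOn_Ioc_of_le (by linarith)] at this
  exact this.mono_set Ioo_subset_Ioc_self

theorem mix_center (τ r : ℝ) (h0 : 0 < τ) (h1 : τ ≤ 1 / 200) (hr : 0 < r) (hr1 : r < 1) :
    4 / Real.pi * (τ ^ 2 * FF r - 4 * τ ^ 3 * r)
      ≤ 2 * ∫ ω, (Ninf ω {x : ℝ | 0 < |x| ∧ |x| < r} : ℝ) ∂(PP (mixLaw τ))
        - (2 / Real.pi) * Real.log ((1 + r) / (1 - r)) := by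
  have h2 := M1.Ninf_center (mixLaw τ) (std_mix τ h0.le (by linarith)) r hr hr1
  have h3 := mix_pos τ r h0 h1 hr hr1
  have h4 := mix_neg τ r h0 h1 hr hr1
  rw [h2]
  have e1 : 4 / Real.pi * (τ ^ 2 * FF r - 4 * τ ^ 3 * r) = 4 * (1 / Real.pi * (τ ^ 2 * FF r - 4 * τ ^ 3 * r)) := by ring
  have e2 : 2 / Real.pi * Real.log ((1 + r) / (1 - r)) = 4 * (1 / (2 * Real.pi) * Real.log ((1 + r) / (1 - r))) := by
    have := Real.pi_ne_zero
    field_simp
    ring
  rw [e1, e2]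
  linarith

theorem mix_main (τ : ℝ) (h0 : 0 < τ) (h1 : τ ≤ 1 / 200) :
    ∃ C : ℝ, gaussConst + τ ^ 2 / 100 ≤ C ∧
      Tendsto (fun n : ℕ => ∫ ω, (nz (kac n ω) univ : ℝ) ∂(PP (mixLaw τ)) - (2 / Real.pi) * Real.log n)
        atTop (𝓝 C) := by
  obtain ⟨L, hL1, hL2⟩ := Fin.main (mixLaw τ) (std_mix τ h0.le (by linarith))
  have hreal : (mixLaw τ).real {0} = 0 := by
    rw [Measure.real, mix_singleton τ h0.le (by linarith)]
    simp
  rw [hreal, zero_add] at hL2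
  refine ⟨gaussConst + L, ?_, hL2⟩
  have hLlow : 4 / Real.pi * (τ ^ 2 * FF 1 - 4 * τ ^ 3 * 1) ≤ L := by
    have hFc : Tendsto (fun r : ℝ => 4 / Real.pi * (τ ^ 2 * FF r - 4 * τ ^ 3 * r)) (𝓝[<] 1)
        (𝓝 (4 / Real.pi * (τ ^ 2 * FF 1 - 4 * τ ^ 3 * 1))) := by
      apply Tendsto.mono_left _ nhdsWithin_le_nhds
      have hF : ContinuousAt FF 1 := (FF_deriv 1).continuousAt
      have : ContinuousAt (fun r : ℝ => 4 / Real.pi * (τ ^ 2 * FF r - 4 * τ ^ 3 * r)) 1 := by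
        fun_prop
      exact this
    refine le_of_tendsto_of_tendsto hFc hL1 ?_
    have : Ioo (0 : ℝ) 1 ∈ 𝓝[<] (1 : ℝ) := Ioo_mem_nhdsLT (by norm_num)
    filter_upwards [this] with r hr
    exact mix_center τ r h0 h1 hr.1 hr.2
  rw [FF_one] at hLlow
  have hpi := Real.pi_pos
  have hpi2 : 3.14 < Real.pi := Real.pi_gt_d2
  have e : 4 / Real.pi * (τ ^ 2 * (3 * Real.pi / 320) - 4 * τ ^ 3 * 1) = 3 / 80 * τ ^ 2 - 16 * τ ^ 3 / Real.pi := by
    field_simp
    ring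
  rw [e] at hLlow
  have h5 : 16 * τ ^ 3 / Real.pi ≤ 0.0275 * τ ^ 2 := by
    rw [div_le_iff₀ hpi]
    have : 16 * τ ≤ 0.0275 * Real.pi := by linarith
    have h6 : 0 ≤ τ ^ 2 := by positivity
    calc 16 * τ ^ 3 = τ ^ 2 * (16 * τ) := by ring
      _ ≤ τ ^ 2 * (0.0275 * Real.pi) := mul_le_mul_of_nonneg_left this h6
      _ = _ := by ring
  linarith

end Q298.KacU
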