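import Mathlib
import Pool.Agent.Q298.KacU.WE

set_option autoImplicit false
set_option maxHeartbeats 4000000
open MeasureTheory ProbabilityTheory Filter Topology Set
open scoped ENNReal NNReal

namespace Q298.KacU
open Kac764

/-- coefficient sequences for which the Kac polynomial and its derivative have a common zero -/
def BB (n : ℕ) : Set (ℕ → ℝ) := {ω | ∃ x : ℝ, D0 n ω x = 0 ∧ D1 n ω x = 0}

theorem closed_double (n : ℕ) (p q : ℝ) :
    IsClosed {ω : ℕ → ℝ | ∃ x ∈ Icc p q, D0 n ω x = 0 ∧ D1 n ω x = 0} := by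
  have hcl : IsClosed {y : (ℕ → ℝ) × (Icc p q) | D0 n y.1 y.2 = 0 ∧ D1 n y.1 y.2 = 0} := by
    have c0 : Continuous (fun y : (ℕ → ℝ) × (Icc p q) => D0 n y.1 y.2) := by
      unfold D0
      apply continuous_finsetSum
      intro j _
      fun_prop
    have c1 : Continuous (fun y : (ℕ → ℝ) × (Icc p q) => D1 n y.1 y.2) := by
      unfold D1
      apply continuous_finsetSum
      intro j _
      fun_prop
    exact (isClosed_eq c0 continuous_const).inter (isClosed_eq c1 continuous_const)
  have him := isClosedMap_fst_of_compactSpace (X := ℕ → ℝ) (Y := Icc p q) _ hcl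
  convert him using 1
  ext ω
  constructor
  · rintro ⟨x, hx, h⟩
    exact ⟨(ω, ⟨x, hx⟩), h, rfl⟩
  · rintro ⟨⟨ω', x⟩, h, rfl⟩
    exact ⟨x, x.2, h⟩

theorem BB_meas (n : ℕ) : MeasurableSet (BB n) := by
  have : BB n = ⋃ N : ℕ, {ω : ℕ → ℝ | ∃ x ∈ Icc (-(N : ℝ)) N, D0 n ω x = 0 ∧ D1 n ω x = 0} := by
    ext ω
    simp only [BB, mem_ofPred_eq, mem_iUnion]
    constructor
    · rintro ⟨x, h⟩
      obtain ⟨N, hN⟩ := exists_nat_ge |x|
      exact ⟨N, x, abs_le.1 hN, h⟩
    · rintro ⟨N, x, _, h⟩
      exact ⟨x, h⟩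
  rw [this]
  exact MeasurableSet.iUnion fun N => (closed_double n _ _).measurableSet

theorem BB_fiber_finite (n : ℕ) (ω : ℕ → ℝ) : {z : ℝ | Function.update ω 0 z ∈ BB n}.Finite := by
  set R : ℝ → ℝ := fun x => ∑ k ∈ Finset.Icc 1 n, ω k * x ^ k with hR
  have h0 : ∀ z x : ℝ, D0 n (Function.update ω 0 z) x = z + R x := by
    intro z x
    unfold D0
    rw [sum_split, Function.update_self, pow_zero, mul_one]
    congr 1
    apply Finset.sum_congr rfl
    intro k hk
    rw [Function.update_of_ne (by rw [Finset.mem_Icc] at hk; omega)]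
  have h1 : ∀ z x : ℝ, D1 n (Function.update ω 0 z) x = D1 n ω x := by
    intro z x
    unfold D1
    rw [sum_split, sum_split]
    simp only [Nat.cast_zero, zero_mul, mul_zero, zero_add]
    apply Finset.sum_congr rfl
    intro k hk
    rw [Function.update_of_ne (by rw [Finset.mem_Icc] at hk; omega)]
  by_cases hq : (kac n ω).derivative = 0
  · have hRc : ∀ x, R x = 0 := by
      intro x
      have hdeg := Polynomial.derivative_eq_zero.1 hq
      obtain ⟨c, hc⟩ := Polynomial.natDegree_eq_zero.1 hdeg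
      have e1 : (kac n ω).eval x = (kac n ω).eval 0 := by rw [← hc]; simp
      rw [J6.kac_eval_10967, J6.kac_eval_10967, sum_split, sum_split (f := fun j => ω j * 0 ^ j)] at e1
      have e2 : ∑ k ∈ Finset.Icc 1 n, ω k * (0 : ℝ) ^ k = 0 := by
        apply Finset.sum_eq_zero
        intro k hk
        rw [zero_pow (by rw [Finset.mem_Icc] at hk; omega), mul_zero]
      rw [e2] at e1
      simp only [pow_zero, mul_one, add_zero] at e1
      have : R x = ∑ k ∈ Finset.Icc 1 n, ω k * x ^ k := rfl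
      linarith
    apply (Set.finite_singleton (0 : ℝ)).subset
    rintro z ⟨x, hx, _⟩
    rw [h0, hRc, add_zero] at hx
    exact hx
  · apply ((kac n ω).derivative.roots.toFinset.image (fun x => -R x)).finite_toSet.subset
    rintro z ⟨x, hx0, hx1⟩
    rw [h0] at hx0
    rw [h1, ← P6.kac_deriv_eval] at hx1
    simp only [Finset.coe_image, mem_image, Finset.mem_coe, Multiset.mem_toFinset]
    refine ⟨x, ?_, by linarith⟩
    rw [Polynomial.mem_roots']
    exact ⟨hq, hx1⟩

theorem BB_null (μ : Measure ℝ) [IsProbabilityMeasure μ] (hat : ∀ y, μ {y} = 0) (n : ℕ) : (PP μ) (BB n) = 0 := by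
  have hm := BB_meas n
  rw [← lintegral_indicator_one hm]
  have hH : Measurable ((BB n).indicator (1 : (ℕ → ℝ) → ℝ≥0∞)) := measurable_one.indicator hm
  rw [← G1.x_lint_upd μ 0 hH]
  have : ∀ ω : ℕ → ℝ, ∫⁻ z, (BB n).indicator (1 : (ℕ → ℝ) → ℝ≥0∞) (Function.update ω 0 z) ∂μ = 0 := by
    intro ω
    have hfin := BB_fiber_finite n ω
    have hmz : MeasurableSet {z : ℝ | Function.update ω 0 z ∈ BB n} := hfin.measurableSet
    have e : ∀ z : ℝ, (BB n).indicator (1 : (ℕ → ℝ) → ℝ≥0∞) (Function.update ω 0 z)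
        = {z : ℝ | Function.update ω 0 z ∈ BB n}.indicator 1 z := by
      intro z
      by_cases h : Function.update ω 0 z ∈ BB n
      · rw [indicator_of_mem h, indicator_of_mem (by exact h)]; rfl
      · rw [indicator_of_notMem h, indicator_of_notMem (by exact h)]
    simp only [e]
    rw [lintegral_indicator_one hmz]
    have : μ (⋃ z ∈ {z : ℝ | Function.update ω 0 z ∈ BB n}, {z}) = 0 :=
      (measure_biUnion_null_iff hfin.countable).2 fun z _ => hat z
    rwa [biUnion_of_singleton] at this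
  simp only [this]
  simp

theorem card_eq_nz (n : ℕ) (ω : ℕ → ℝ) (h : ω ∉ BB n) : Multiset.card (kac n ω).roots = nz (kac n ω) univ := by
  have hne : kac n ω ≠ 0 := by
    intro h0
    apply h
    refine ⟨0, ?_, ?_⟩
    · have := J6.kac_eval_10967 n ω 0
      rw [h0, Polynomial.eval_zero] at this
      exact this.symm
    · rw [← P6.kac_deriv_eval, h0]
      simp
  have hnd : (kac n ω).roots.Nodup := by
    rw [Multiset.nodup_iff_count_le_one]
    intro x
    rw [Polynomial.count_roots]
    by_contra hc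
    push Not at hc
    rw [Polynomial.one_lt_rootMultiplicity_iff_isRoot hne] at hc
    apply h
    refine ⟨x, ?_, ?_⟩
    · have := J6.kac_eval_10967 n ω x
      have h2 : (kac n ω).eval x = 0 := hc.1
      rw [this] at h2
      exact h2
    · rw [← P6.kac_deriv_eval]
      exact hc.2
  have hset : {x : ℝ | x ∈ univ ∧ kac n ω ≠ 0 ∧ (kac n ω).eval x = 0} = ((kac n ω).roots.toFinset : Set ℝ) := by
    ext x
    simp [hne, Polynomial.mem_roots']
  unfold nz
  rw [hset, Set.ncard_coe_finset, Multiset.toFinset_card_of_nodup hnd]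

theorem card_ae (μ : Measure ℝ) [IsProbabilityMeasure μ] (hat : ∀ y, μ {y} = 0) (n : ℕ) :
    ∀ᵐ ω ∂(PP μ), (Multiset.card (kac n ω).roots : ℝ) = (nz (kac n ω) univ : ℝ) := by
  have := BB_null μ hat n
  filter_upwards [compl_mem_ae_iff.2 this] with ω hω
  rw [card_eq_nz n ω hω]

theorem card_int (μ : Measure ℝ) (hμ : Std μ) (hat : ∀ y, μ {y} = 0) (n : ℕ) :
    Integrable (fun ω => (Multiset.card (kac n ω).roots : ℝ)) (PP μ) := by
  have := hμ.prob
  have hm : Measurable (fun ω : ℕ → ℝ => nz (kac n ω) univ) := H4.measurable_nz_set n univ (Or.inl rfl)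
  have hI := M1.aux12193_int_of_bdd μ hμ (fun ω => nz (kac n ω) univ) hm n (fun ω => M1.aux12193_nz_le n ω _)
  refine hI.congr ?_
  filter_upwards [card_ae μ hat n] with ω hω
  exact hω.symm

end Q298.KacU
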